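import Mathlib

/-!
# [H41 TU Dio] Theorem U, the plane: one-sided Dirichlet approximation

Two linear forms on `ℤ²`: `X(a, b) = m a + n b` (integral) and `Y(a, b) = α a + β b` (injective on `ℤ²`), with determinant `Δ = m β - n α ≠ 0`.
There are integral vectors with `0 < Y < η`, `X > 0`, `X * Y ≤ C`, with `C = |Δ|`.

PROOF.  `β ≠ 0` (`hirr 0 1`).  `ξ = α / β`, `θ = Δ / β = m - n ξ ≠ 0`.  Let `η > 0`.  Choose `N : ℕ`, `N ≥ 1`, so large that with `t = 1 / (N + 1)`: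
`|β| t < η`, `|n| t < |θ|`, `|n| |β| t < |Δ|`.
`Real.exists_rat_abs_sub_le_and_den_le ξ` (`N > 0`): `q : ℚ` with `|ξ - q| ≤ 1 / ((N + 1) * q.den)`, `q.den ≤ N`.  `d = q.den`, `r = q.num`, `δ = d ξ - r`: `|δ| ≤ t`, and `d`, `r` are coprime.
`Y(d, -r) = β δ`, `X(d, -r) = m d - n r = d θ + n δ`.
Let `σ = 1` if `θ > 0` and `σ = -1` if `θ < 0`; `v = (P, Q) = (σ d, - σ r)`: `X(v) = d |θ| + σ n δ ≥ |θ| - |n| t > 0`, `Y(v) = σ β δ`, `|Y(v)| ≤ |β| t < η`, `Y(v) ≠ 0` (`hirr`, `d ≠ 0`), and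
`X(v) |Y(v)| ≤ (d |θ| + |n| t) |β| t ≤ N t |Δ| + |n| |β| t ^ 2 < |Δ|`, because `|θ| |β| = |Δ|`, `N t = 1 - t` and `|n| |β| t < |Δ|`.
CASE 1: `Y(v) > 0`: take `v`.
CASE 2: `Y(v) < 0`.  `P`, `Q` are coprime (`q.reduced`): `P u + Q w = 1` (`Int.isCoprime_iff_gcd_eq_one`, `IsCoprime`).  Let `ε = ±1` be the sign of `Δ`, `w₀ = (- ε w, ε u)`: `P * (ε u) - Q * (- ε w) = ε`.
For all vectors: `X(v) Y(w') - X(w') Y(v) = (P b - Q a) Δ` for `w' = (a, b)` (ring).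
Let `t' = ⌈Y(w₀) / |Y(v)|⌉ - 1 : ℤ` and `w' = w₀ + t' v`: `Y(w') = Y(w₀) - t' |Y(v)|`, so `0 < Y(w') ≤ |Y(v)| < η`; the determinant of `v, w'` is again `ε`, so
`X(w') |Y(v)| = |Δ| - X(v) Y(w') ≥ |Δ| - X(v) |Y(v)| > 0`, so `X(w') > 0`, and `X(w') Y(w') ≤ X(w') |Y(v)| ≤ |Δ|`.
-/

set_option autoImplicit false

namespace Pool.Agent.H41.TU

private theorem dio_real (β θ Δ δ t η n d σ : ℝ) (hσ : σ = 1 ∨ σ = -1) (hσθ : σ * θ = |θ|)
    (hΔ : θ * β = Δ) (hΔ0 : Δ ≠ 0) (ht0 : 0 < t) (hη : |β| * t < η) (h1 : |n| * t < |θ|)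
    (h2 : |n| * |β| * t < |Δ|) (hδ : |δ| ≤ t) (hd : 1 ≤ d) (hdt : d * t ≤ 1 - t) :
    0 < σ * (d * θ + n * δ) ∧ |σ * (β * δ)| < η ∧
      σ * (d * θ + n * δ) * |σ * (β * δ)| < |Δ| := by
  have hσ1 : |σ| = 1 := by
    rcases hσ with h | h
    · rw [h, abs_one]
    · rw [h, abs_neg, abs_one]
  have hθ : 0 < |θ| := by
    rw [abs_pos]
    rintro rfl
    rw [zero_mul] at hΔ
    exact hΔ0 hΔ.symm
  have hX : σ * (d * θ + n * δ) = d * |θ| + σ * (n * δ) := by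
    rw [← hσθ]
    ring
  have hnd : |σ * (n * δ)| ≤ |n| * t := by
    rw [abs_mul, abs_mul, hσ1, one_mul]
    exact mul_le_mul_of_nonneg_left hδ (abs_nonneg n)
  obtain ⟨h3, h4⟩ := abs_le.1 hnd
  have hdθ : |θ| ≤ d * |θ| := by nlinarith
  have hX0 : 0 < σ * (d * θ + n * δ) := by
    rw [hX]
    linarith
  have hY : |σ * (β * δ)| ≤ |β| * t := by
    rw [abs_mul, abs_mul, hσ1, one_mul]
    exact mul_le_mul_of_nonneg_left hδ (abs_nonneg β)
  refine ⟨hX0, lt_of_le_of_lt hY hη, ?_⟩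
  have hΔa : |θ| * |β| = |Δ| := by rw [← abs_mul, hΔ]
  have h5 : σ * (d * θ + n * δ) ≤ d * |θ| + |n| * t := by
    rw [hX]
    linarith
  have h6 : σ * (d * θ + n * δ) * |σ * (β * δ)| ≤ (d * |θ| + |n| * t) * (|β| * t) :=
    mul_le_mul h5 hY (abs_nonneg _) (by positivity)
  have h7 : (d * |θ| + |n| * t) * (|β| * t) = d * t * |Δ| + |n| * |β| * t * t := by
    rw [← hΔa]
    ring
  have h8 : d * t * |Δ| ≤ (1 - t) * |Δ| := mul_le_mul_of_nonneg_right hdt (abs_nonneg _)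
  have h9 : |n| * |β| * t * t < |Δ| * t := mul_lt_mul_of_pos_right h2 ht0
  calc σ * (d * θ + n * δ) * |σ * (β * δ)| ≤ (d * |θ| + |n| * t) * (|β| * t) := h6
    _ = d * t * |Δ| + |n| * |β| * t * t := h7
    _ < (1 - t) * |Δ| + |Δ| * t := by linarith
    _ = |Δ| := by ring

/-- the second case: the vector is corrected by a complementary vector -/
private theorem dio_case (α β m n η : ℝ) (hΔ : m * β - n * α ≠ 0) (P Q u w : ℤ)
    (hPQ : P * u + Q * w = 1) (hX : 0 < m * P + n * Q) (hY : α * P + β * Q < 0)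
    (hη : |α * P + β * Q| < η) (hXY : (m * P + n * Q) * |α * P + β * Q| < |m * β - n * α|) :
    ∃ a b : ℤ, 0 < α * a + β * b ∧ α * a + β * b < η ∧
      0 < m * a + n * b ∧ (m * a + n * b) * (α * a + β * b) ≤ |m * β - n * α| := by
  obtain ⟨e, he⟩ : ∃ e : ℤ, (e : ℝ) * (m * β - n * α) = |m * β - n * α| := by
    rcases le_total 0 (m * β - n * α) with h | h
    · exact ⟨1, by rw [abs_of_nonneg h]; push_cast; ring⟩
    · exact ⟨-1, by rw [abs_of_nonpos h]; push_cast; ring⟩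
  obtain ⟨y, hy⟩ : ∃ y, y = |α * P + β * Q| := ⟨_, rfl⟩
  have hy0 : 0 < y := by rw [hy]; exact abs_pos.2 hY.ne
  have hy' : α * P + β * Q = -y := by rw [hy, abs_of_neg hY, neg_neg]
  obtain ⟨t, ht⟩ : ∃ t : ℤ, t = ⌈(α * ((-(e * w) : ℤ) : ℝ) + β * ((e * u : ℤ) : ℝ)) / y⌉ - 1 := ⟨_, rfl⟩
  obtain ⟨z, hz⟩ : ∃ z, z = α * ((-(e * w) : ℤ) : ℝ) + β * ((e * u : ℤ) : ℝ) := ⟨_, rfl⟩
  rw [← hz] at ht
  have h1 : z / y ≤ t + 1 := by
    have := Int.le_ceil (z / y)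
    rw [ht]
    push_cast
    linarith
  have h2 : (t : ℝ) < z / y := by
    have := Int.ceil_lt_add_one (z / y)
    rw [ht]
    push_cast
    linarith
  rw [div_le_iff₀ hy0] at h1
  rw [lt_div_iff₀ hy0] at h2
  have hPQ' : (P : ℝ) * u + Q * w = 1 := by exact_mod_cast hPQ
  have hYw : α * ((-(e * w) + t * P : ℤ) : ℝ) + β * ((e * u + t * Q : ℤ) : ℝ) = z - t * y := by
    rw [hz]
    push_cast
    have : α * (-(↑e * ↑w) + ↑t * ↑P) + β * (↑e * ↑u + ↑t * ↑Q) =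
        α * (-(↑e * ↑w)) + β * (↑e * ↑u) + t * (α * P + β * Q) := by ring
    rw [this, hy']
    ring
  have hdet : (m * P + n * Q) * (z - t * y) + (m * ((-(e * w) + t * P : ℤ) : ℝ) +
      n * ((e * u + t * Q : ℤ) : ℝ)) * y = |m * β - n * α| := by
    rw [← hYw]
    have h3 : y = -(α * P + β * Q) := by rw [hy', neg_neg]
    rw [h3, ← he]
    push_cast
    linear_combination (e * (m * β - n * α)) * hPQ'
  rw [← hy] at hη hXY
  refine ⟨-(e * w) + t * P, e * u + t * Q, ?_, ?_, ?_, ?_⟩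
  · rw [hYw]; linarith
  · rw [hYw]; linarith
  · have h4 : (m * P + n * Q) * (z - t * y) ≤ (m * P + n * Q) * y :=
      mul_le_mul_of_nonneg_left (by linarith) hX.le
    have h5 : 0 < (m * ((-(e * w) + t * P : ℤ) : ℝ) + n * ((e * u + t * Q : ℤ) : ℝ)) * y := by
      linarith
    exact (mul_pos_iff_of_pos_right hy0).1 h5
  · rw [hYw]
    have h4 : 0 ≤ (m * P + n * Q) * (z - t * y) := mul_nonneg hX.le (by linarith)
    have h6 : (m * P + n * Q) * (z - t * y) ≤ (m * P + n * Q) * y :=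
      mul_le_mul_of_nonneg_left (by linarith) hX.le
    have h5 : 0 < (m * ((-(e * w) + t * P : ℤ) : ℝ) + n * ((e * u + t * Q : ℤ) : ℝ)) * y := by
      linarith
    have h7 := (mul_pos_iff_of_pos_right hy0).1 h5
    have h8 := mul_le_mul_of_nonneg_left (show z - t * y ≤ y by linarith) h7.le
    linarith

theorem dio (α β : ℝ) (m n : ℤ) (hΔ : (m : ℝ) * β - n * α ≠ 0)
    (hirr : ∀ a b : ℤ, α * a + β * b = 0 → a = 0 ∧ b = 0) :
    ∃ C : ℝ, ∀ η : ℝ, 0 < η → ∃ a b : ℤ, 0 < α * a + β * b ∧ α * a + β * b < η ∧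
      0 < (m : ℝ) * a + n * b ∧ ((m : ℝ) * a + n * b) * (α * a + β * b) ≤ C := by
  refine ⟨|(m : ℝ) * β - n * α|, fun η hη => ?_⟩
  have hβ : β ≠ 0 := by
    rintro rfl
    have h := (hirr 0 1 (by push_cast; ring)).2
    exact one_ne_zero h
  have hβ' : 0 < |β| := abs_pos.2 hβ
  obtain ⟨ξ, hξ⟩ : ∃ ξ, ξ = α / β := ⟨_, rfl⟩
  have hα : α = ξ * β := by rw [hξ, div_mul_cancel₀ _ hβ]
  obtain ⟨θ, hθ⟩ : ∃ θ, θ = m - n * ξ := ⟨_, rfl⟩
  have hθΔ : θ * β = (m : ℝ) * β - n * α := by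
    rw [hθ, hα]
    ring
  have hθ0 : 0 < |θ| := by
    rw [abs_pos]
    rintro h
    rw [h, zero_mul] at hθΔ
    exact hΔ hθΔ.symm
  have hΔ' : 0 < |(m : ℝ) * β - n * α| := abs_pos.2 hΔ
  obtain ⟨N0, hN0⟩ := exists_nat_one_div_lt (K := ℝ) (show (0 : ℝ) < min (η / |β|)
    (min (|θ| / (|(n : ℝ)| + 1)) (|(m : ℝ) * β - n * α| / (|(n : ℝ)| * |β| + 1))) from
    lt_min (by positivity) (lt_min (by positivity) (by positivity)))
  obtain ⟨t, ht⟩ : ∃ t : ℝ, t = 1 / (((N0 + 1 : ℕ) : ℝ) + 1) := ⟨_, rfl⟩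
  have ht0 : 0 < t := by rw [ht]; positivity
  have htN : t < min (η / |β|)
    (min (|θ| / (|(n : ℝ)| + 1)) (|(m : ℝ) * β - n * α| / (|(n : ℝ)| * |β| + 1))) := by
    refine lt_of_le_of_lt ?_ hN0
    rw [ht]
    apply one_div_le_one_div_of_le
    · positivity
    · push_cast
      linarith
  rw [lt_min_iff, lt_min_iff, lt_div_iff₀ hβ', lt_div_iff₀ (by positivity), lt_div_iff₀ (by positivity)] at htN
  obtain ⟨h1, h2, h3⟩ := htN
  obtain ⟨q, hq1, hq2⟩ := Real.exists_rat_abs_sub_le_and_den_le ξ (n := N0 + 1) (Nat.succ_pos _)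
  have hd0 : (0 : ℝ) < q.den := by exact_mod_cast q.den_pos
  obtain ⟨δ, hδ⟩ : ∃ δ : ℝ, δ = q.den * ξ - q.num := ⟨_, rfl⟩
  have hδt : |δ| ≤ t := by
    have e1 : δ = q.den * (ξ - q) := by
      rw [hδ, mul_sub]
      congr 1
      have : (q : ℝ) = q.num / q.den := by exact_mod_cast (Rat.num_div_den q).symm
      rw [this, mul_div_cancel₀ _ hd0.ne']
    rw [e1, abs_mul, abs_of_pos hd0]
    calc (q.den : ℝ) * |ξ - q| ≤ q.den * (1 / ((((N0 + 1 : ℕ) : ℝ) + 1) * q.den)) :=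
          mul_le_mul_of_nonneg_left hq1 hd0.le
      _ = t := by
          rw [ht]
          field_simp
  have hd1 : (1 : ℝ) ≤ q.den := by exact_mod_cast q.den_pos
  have hdt : (q.den : ℝ) * t ≤ 1 - t := by
    have h4 : (q.den : ℝ) ≤ ((N0 + 1 : ℕ) : ℝ) := by exact_mod_cast hq2
    have h5 : t * (((N0 + 1 : ℕ) : ℝ) + 1) = 1 := by
      rw [ht]
      field_simp
    have h6 := mul_le_mul_of_nonneg_right h4 ht0.le
    linarith
  obtain ⟨σ, hσ, hσθ⟩ : ∃ σ : ℤ, (σ = 1 ∨ σ = -1) ∧ (σ : ℝ) * θ = |θ| := by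
    rcases le_total 0 θ with h | h
    · exact ⟨1, Or.inl rfl, by rw [abs_of_nonneg h]; push_cast; ring⟩
    · exact ⟨-1, Or.inr rfl, by rw [abs_of_nonpos h]; push_cast; ring⟩
  have hσσ : σ * σ = 1 := by rcases hσ with h | h <;> rw [h] <;> rfl
  have key := dio_real β θ ((m : ℝ) * β - n * α) δ t η n q.den σ
    (by rcases hσ with h | h <;> rw [h] <;> simp) hσθ hθΔ hΔ ht0 (by linarith)
    (by nlinarith [abs_nonneg (n : ℝ)]) (by nlinarith [abs_nonneg (n : ℝ)]) hδt hd1 hdt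
  have hXv : (m : ℝ) * ((σ * q.den : ℤ) : ℝ) + n * ((-(σ * q.num) : ℤ) : ℝ) =
      σ * (q.den * θ + n * δ) := by
    rw [hθ, hδ]
    push_cast
    ring
  have hYv : α * ((σ * q.den : ℤ) : ℝ) + β * ((-(σ * q.num) : ℤ) : ℝ) = σ * (β * δ) := by
    rw [hα, hδ]
    push_cast
    ring
  rw [← hXv, ← hYv] at key
  obtain ⟨k1, k2, k3⟩ := key
  rcases lt_trichotomy (α * ((σ * q.den : ℤ) : ℝ) + β * ((-(σ * q.num) : ℤ) : ℝ)) 0 with hlt | heq | hgt
  · have hcop : IsCoprime (q.den : ℤ) q.num := by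
      rw [Int.isCoprime_iff_gcd_eq_one]
      have := q.reduced
      rw [Nat.coprime_comm] at this
      exact this
    obtain ⟨u, w, huw⟩ := hcop
    refine dio_case α β m n η hΔ (σ * q.den) (-(σ * q.num)) (σ * u) (-(σ * w)) ?_ k1 hlt k2 k3
    linear_combination (σ * σ) * huw + hσσ
  · exfalso
    have h4 := (hirr _ _ heq).1
    rcases mul_eq_zero.1 h4 with h5 | h5
    · rcases hσ with h | h <;> rw [h] at h5 <;> exact absurd h5 (by decide)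
    · have : q.den = 0 := by exact_mod_cast h5
      exact q.den_pos.ne' this
  · refine ⟨_, _, hgt, ?_, k1, ?_⟩
    · rwa [abs_of_pos hgt] at k2
    · rw [abs_of_pos hgt] at k3
      exact k3.le

end Pool.Agent.H41.TU
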