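import Pool.Agent.H41.TU.ClB
import Pool.Agent.H24.TU.Main
import Pool.Agent.H39.TU.THII
import Pool.Agent.H20.TU.ST1
import Pool.Agent.H20.TU.GRO
import Pool.Agent.H83.TU.UB

/-!
# [H41 TU Mai] Theorem U: Theorems I and II give `Mai X`
-/

set_option autoImplicit false

namespace Pool.Agent.H41.TU

open Pool.Agent.H54.RV Pool.Agent.H83.TU Pool.Agent.H24.TU Pool.Agent.H39.TU Filter

variable {k K : Type} [Field k] [Field K] [Algebra k K] {X : Mod k K}

/-- the graded system of the sections of the multiples of an ample divisor -/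
noncomputable def gsec (h : Hyp X) (hG : GF X) (hUF : UF X) (D : Cart X) (hD : Ample D)
    (h1 : 0 < h0 D 1) : GSys k K where
  L := secL D
  one_mem := fun x => by
    rw [pow_zero, mul_one]
    exact (X.O x).one_mem
  mul_mem := fun {m n a b} ha hb x => by
    have h2 : a * b * D.eq x ^ (m + n) = (a * D.eq x ^ m) * (b * D.eq x ^ n) := by ring
    rw [h2]
    exact (X.O x).mul_mem (ha x) (hb x)
  fin := hG.1 D
  ne_bot := by
    intro h2
    have h3 : h0 D 1 = 0 := by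
      unfold h0
      rw [h2, finrank_bot]
    omega
  frac := frac_sec h hUF D hD

private theorem mai_e (th : ℝ) (hth : 0 < th) : ∃ e : ℕ, 1 ≤ e ∧ (1 + 3 / (e : ℝ)) ^ 3 ≤ 1 + th := by
  have h1 : Tendsto (fun e : ℕ => (1 + 3 / (e : ℝ)) ^ 3) atTop (nhds ((1 + 0) ^ 3)) :=
    ((tendsto_const_div_atTop_nhds_zero_nat 3).const_add 1).pow 3
  have h2 : ∀ᶠ e : ℕ in atTop, (1 + 3 / (e : ℝ)) ^ 3 < 1 + th :=
    h1.eventually (gt_mem_nhds (by linarith [hth] : ((1 : ℝ) + 0) ^ 3 < 1 + th))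
  obtain ⟨e, he, he'⟩ := (h2.and (eventually_ge_atTop 1)).exists
  exact ⟨e, he', he.le⟩

private theorem mai_ev (hG : GF X) (D : Cart X) (w : ℝ) (hw : vol D < w) :
    ∀ᶠ n : ℕ in atTop, (Module.finrank k (secL D n) : ℝ) ≤ w * (n : ℝ) ^ 3 := by
  obtain ⟨C, hC⟩ := hG.2 D
  have hbd : IsBoundedUnder (· ≤ ·) atTop (fun n : ℕ => (h0 D n : ℝ) / (n : ℝ) ^ 3) := by
    refine isBoundedUnder_of_eventually_le (a := (C : ℝ)) ?_
    filter_upwards [eventually_ge_atTop 1] with n hn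
    have hn' : (0 : ℝ) < (n : ℝ) ^ 3 := by
      have : (0 : ℝ) < n := by exact_mod_cast hn
      positivity
    rw [div_le_iff₀ hn']
    exact_mod_cast hC n hn
  have h1 := eventually_lt_of_limsup_lt hw hbd
  filter_upwards [h1, eventually_ge_atTop 1] with n h2 hn
  have hn' : (0 : ℝ) < (n : ℝ) ^ 3 := by
    have : (0 : ℝ) < n := by exact_mod_cast hn
    positivity
  rw [div_lt_iff₀ hn'] at h2
  exact h2.le

theorem mai_holds [IsAlgClosed k] [CharZero k] (h : Hyp X) (hsm : ∀ x, SmP X x) : Mai X := by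
  have hG : GF X := Pool.Agent.H20.TU.gf h.var h.gen h.tr
  have hUN : UN X := un_all h.var
  have hUF : UF X := uf_all h.var
  obtain ⟨Cd⟩ := exists_coord (k := k) (K := K) h.tr
  have hess : Algebra.EssFiniteType k K := by
    have h1 := K_fg h.var h.gen
    have h2 := IntermediateField.essFiniteType_iff.2 h1
    exact Algebra.EssFiniteType.of_surjective
      (IntermediateField.topEquiv (F := k) (E := K)).toAlgHom
      (IntermediateField.topEquiv (F := k) (E := K)).surjective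
  intro th hth
  obtain ⟨e, he, het⟩ := mai_e th hth
  refine ⟨max ((2 * e + 5).choose 3) ((28 * e + 1 + 4).choose 3), 28 * e + 1, fun D hD hst hN hth' => ?_⟩
  have hN1 : (2 * e + 5).choose 3 < h0 D 1 := lt_of_le_of_lt (le_max_left _ _) hN
  have hN2 : (28 * e + 1 + 4).choose 3 < h0 D 1 := lt_of_le_of_lt (le_max_right _ _) hN
  have hpos : 0 < h0 D 1 := by omega
  have hv0 := vol_nonneg hG D
  have hE : (0 : ℝ) < (1 + 3 / (e : ℝ)) ^ 3 := by positivity
  have h1 : (1 + 3 / (e : ℝ)) ^ 3 * vol D < h0 D 1 :=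
    lt_of_le_of_lt (mul_le_mul_of_nonneg_right het hv0) hth'
  have h2 : vol D < (h0 D 1 : ℝ) / (1 + 3 / (e : ℝ)) ^ 3 := by
    rw [lt_div_iff₀ hE, mul_comm]
    exact h1
  obtain ⟨w, hw1, hw2⟩ := exists_between h2
  have hw3 : (1 + 3 / (e : ℝ)) ^ 3 * w < h0 D 1 := by
    rw [lt_div_iff₀ hE, mul_comm] at hw2
    exact hw2
  have hstar : ∀ (Y : Type) [Field Y] [Algebra k Y], StarOne k Y K (secL D 1) := by
    intro Y _ _
    exact Pool.Agent.H20.TU.star_one h.var h.gen h.ufd h.tr Cd D hst Y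
  obtain ⟨F, hF, n₀, hgr⟩ := theoremI_nat h.tr (gsec h hG hUF D hD hpos) (hstar K) he w
    (mai_ev hG D w hw1) hw3 hN1.le
  obtain ⟨hR, M, hM, hM', hRM⟩ := theoremII h hG hUN hUF hsm D hD hstar F hF (28 * e + 1) n₀ hgr hN2
  exact ⟨RF h.var h.gen F, rfun_rf h.var h.gen hUF F hF, hR, M, hM, hM', hRM⟩

end Pool.Agent.H41.TU
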