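import Pool.Agent.H83.TU.NV

/-!
# [H41 TU Sup] Theorem U, the plane: the supporting form of the effective cone at a boundary class

`AmpV ν` open and not empty, `p` in the closure of `AmpV ν` and not in the interior of `EffV ν`.  There is a linear form `y ≠ 0` with `y p = 0`, `y ≥ 0` on `EffV ν` and `y > 0` on `AmpV ν`.

PROOF.  `AmpV ν ⊆ EffV ν` (`ampV_effV`), `AmpV ν` open, so `AmpV ν ⊆ interior (EffV ν) =: W`, and `W` is convex (`effV_conv`, `Convex.interior`), open and not empty.
`geometric_hahn_banach_open_point` (for `W` and `p ∉ W`; or `geometric_hahn_banach_point_open`): a continuous linear form `f` with `f p < f w` for all `w ∈ W` (take the negative if necessary).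
`y = f` (as a linear map).  Let `a ∈ AmpV ν`: `y p < y a`.
(1) `y p ≤ 0`: for `c > 0`, `c • a ∈ AmpV ν` (`ampV_smul`) so `y p < c * y a`; let `c → 0` (if `y p > 0` take `c = y p / (|y a| + 1)`).
(2) `y ≥ 0` on `EffV ν`: let `v ∈ EffV ν` with `y v < 0`.  For `c > 0`: `c • v + a ∈ W` (it is in the open set `c • v + AmpV ν ⊆ EffV ν`, `effV_add`, `effV_smul`; `interior_maximal`), so `y p < c * y v + y a` for all `c > 0`: false for `c` large.
(3) `y p ≥ 0`: `p` is in the closure of `AmpV ν`, `y ≥ 0` on `AmpV ν` by (2), `y` is continuous (`LinearMap.continuous_of_finiteDimensional`).  So `y p = 0`, and `y a > y p = 0` for all `a ∈ AmpV ν`; in particular `y ≠ 0`.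
-/

set_option autoImplicit false

namespace Pool.Agent.H41.TU

open Pool.Agent.H54.RV Pool.Agent.H83.TU

variable {k K : Type} [Field k] [Field K] [Algebra k K] {X : Mod k K}
  {ν : Cart X →* Multiplicative (Fin 2 → ℤ)}

theorem sup (h : Hyp X) (hν : Num ν) (hop : IsOpen (AmpV ν)) (p : Fin 2 → ℝ)
    (hp1 : p ∈ closure (AmpV ν)) (hp2 : p ∉ interior (EffV ν)) :
    ∃ y : (Fin 2 → ℝ) →ₗ[ℝ] ℝ, y p = 0 ∧ (∀ v ∈ EffV ν, 0 ≤ y v) ∧ ∀ v ∈ AmpV ν, 0 < y v := by
  have hsub : AmpV ν ⊆ interior (EffV ν) := interior_maximal (ampV_effV h.var hν) hop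
  obtain ⟨f, hf⟩ := geometric_hahn_banach_point_open (effV_conv (ν := ν)).interior isOpen_interior hp2
  obtain ⟨A, hA⟩ := h.amp
  have ha : cv ν A ∈ AmpV ν := ampV_cv ν A hA
  have h1 : ∀ a ∈ AmpV ν, f p < f a := fun a ha => hf a (hsub ha)
  have h2 : f p ≤ 0 := by
    by_contra hcon
    push Not at hcon
    have hfa := h1 _ ha
    have hfa0 : 0 < f (cv ν A) := hcon.trans hfa
    have h3 := h1 _ (ampV_smul (ν := ν) (c := f p / (2 * f (cv ν A))) (by positivity) ha)
    rw [map_smul, smul_eq_mul] at h3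
    have h4 : f p / (2 * f (cv ν A)) * f (cv ν A) = f p / 2 := by
      field_simp
    rw [h4] at h3
    linarith
  have h3 : ∀ v ∈ EffV ν, 0 ≤ f v := by
    intro v hv
    by_contra hcon
    push Not at hcon
    have h4 : ∀ c : ℝ, 0 < c → f p < c * f v + f (cv ν A) := by
      intro c hc
      have h5 : c • v + cv ν A ∈ interior (EffV ν) := by
        have h6 : IsOpen ((fun w => c • v + w) '' AmpV ν) := (Homeomorph.addLeft (c • v)).isOpenMap _ hop
        refine interior_maximal ?_ h6 ⟨_, ha, rfl⟩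
        rintro _ ⟨w, hw, rfl⟩
        exact effV_add (effV_smul hc.le hv) (ampV_effV h.var hν hw)
      have h6 := hf _ h5
      rwa [map_add, map_smul, smul_eq_mul] at h6
    have h5 := h4 ((|f (cv ν A)| + |f p| + 1) / (- f v)) (by
      have : 0 < - f v := by linarith
      positivity)
    have h6 : (|f (cv ν A)| + |f p| + 1) / (- f v) * f v = - (|f (cv ν A)| + |f p| + 1) := by
      have : f v ≠ 0 := hcon.ne
      field_simp
    rw [h6] at h5
    have h7 := le_abs_self (f (cv ν A))
    have h8 := neg_abs_le (f p)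
    linarith
  have h4 : 0 ≤ f p := by
    have h5 : IsClosed {w : Fin 2 → ℝ | 0 ≤ f w} := isClosed_le continuous_const f.continuous
    have h6 : closure (AmpV ν) ⊆ {w : Fin 2 → ℝ | 0 ≤ f w} :=
      closure_minimal (fun w hw => h3 w (ampV_effV h.var hν hw)) h5
    exact h6 hp1
  have h5 : f p = 0 := le_antisymm h2 h4
  refine ⟨f.toLinearMap, h5, h3, fun v hv => ?_⟩
  have h6 := h1 v hv
  rw [h5] at h6
  exact h6

end Pool.Agent.H41.TU
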