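import Pool.Agent.H41.TU.Lin
import Pool.Agent.H41.TU.Sup
import Pool.Agent.H83.TU.EN

/-!
# [H41 TU Coo] Theorem U, the plane: the coordinates

`p` in the closure of the ample cone, not in the interior of the effective cone, no nonzero multiple of `p` is an integral vector; `R` an `RFun`.  There are `x`, `y` with `Coords ν p x y` and `x (cv ν D) = R D`.

PROOF.  `x = r` of `rlin`, `y` of `sup`.
* `x > 0` on `AmpV ν`: an element is `∑ c i • cv ν (D i)` with `c i > 0`, `D i` ample, at least one summand (`Fin (m + 1)`), and `x (cv ν (D i)) = R (D i) > 0` (`hR.amp`; `Finset.sum_pos`).  `x ≥ 0` on `EffV ν` in the same way (`hR.eff`).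
* `hp3` with any `t ≠ 0`, `s = 0`: `p ≠ 0`.
* `x p > 0`: `x p ≥ 0` by continuity (`p` in the closure of `AmpV ν`).  Let `x p = 0`.  `x e₀ = i₀`, `x e₁ = i₁` are integers (`e_j = Pi.single j 1 = cv ν (b j)`, `cv_surj`), not both zero (otherwise `x = 0`, but `x > 0` at the class of an ample divisor, `h.amp`).
  `0 = x p = i₀ * p 0 + i₁ * p 1`.  If `i₁ ≠ 0`: `p 1 = - i₀ * p 0 / i₁`; `p 0 ≠ 0` (otherwise `p = 0`), and `(i₁ / p 0) • p = (i₁, - i₀)` is integral: against `hp3`.  If `i₁ = 0`: `i₀ ≠ 0`, `p 0 = 0`, `p 1 ≠ 0`, `(1 / p 1) • p = (0, 1)`: against `hp3`.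
* `inj`: let `x v = 0`, `y v = 0`.  `y ≠ 0` (positive on `AmpV ν`, not empty: `h.amp`, `ampV_cv`), `p ≠ 0`, `y p = 0`.  The kernel of `y` has dimension `1`, so `v = c • p` for some `c`
  (by hand: `y v = v 0 * y e₀ + v 1 * y e₁ = 0` and the same for `p`, `(y e₀, y e₁) ≠ 0`, so `v 0 * p 1 = v 1 * p 0`; with `p 0 ≠ 0`: `c = v 0 / p 0`, otherwise `p 1 ≠ 0`, `c = v 1 / p 1`).  `0 = x v = c * x p`, so `c = 0`, `v = 0`.
* `xint`: `x (cv ν D) = R D`.
* `yirr`: let `y (cv ν D) = 0`.  As above `cv ν D = c • p`; if `c ≠ 0` this is against `hp3` (`cv ν D` is integral: `cv_int`); so `cv ν D = 0`.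
* `ypos`: `D` effective, `D⁻¹` not effective: `y (cv ν D) ≥ 0` (`effV_cv`); if it is `0` then `cv ν D = 0` by `yirr`, so `NumZ D` (`cv_eq_zero`), against `eff_not_numz`.
-/

set_option autoImplicit false

namespace Pool.Agent.H41.TU

open Pool.Agent.H54.RV Pool.Agent.H83.TU

variable {k K : Type} [Field k] [Field K] [Algebra k K] {X : Mod k K}
  {ν : Cart X →* Multiplicative (Fin 2 → ℤ)}

private theorem coo_vec (f : (Fin 2 → ℝ) →ₗ[ℝ] ℝ) (v : Fin 2 → ℝ) :
    f v = v 0 * f (Pi.single 0 1) + v 1 * f (Pi.single 1 1) := by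
  have h1 : v = v 0 • (Pi.single 0 1 : Fin 2 → ℝ) + v 1 • (Pi.single 1 1 : Fin 2 → ℝ) := by
    funext i
    fin_cases i <;> simp
  conv_lhs => rw [h1]
  rw [map_add, map_smul, map_smul, smul_eq_mul, smul_eq_mul]

private theorem coo_ker (y : (Fin 2 → ℝ) →ₗ[ℝ] ℝ) (hy : y ≠ 0) (p v : Fin 2 → ℝ) (hp : p ≠ 0)
    (hyp : y p = 0) (hv : y v = 0) : ∃ c : ℝ, v = c • p := by
  have h1 := coo_vec y p
  have h2 := coo_vec y v
  rw [hyp] at h1
  rw [hv] at h2
  have h3 : v 0 * p 1 = v 1 * p 0 := by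
    by_contra hne
    have h4 : y (Pi.single 0 1) = 0 ∧ y (Pi.single 1 1) = 0 := by
      constructor
      · have : (v 0 * p 1 - v 1 * p 0) * y (Pi.single 0 1) = 0 := by linear_combination p 1 * (-h2) + v 1 * h1
        rcases mul_eq_zero.1 this with h5 | h5
        · exact absurd (sub_eq_zero.1 h5) hne
        · exact h5
      · have : (v 0 * p 1 - v 1 * p 0) * y (Pi.single 1 1) = 0 := by linear_combination p 0 * h2 - v 0 * h1
        rcases mul_eq_zero.1 this with h5 | h5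
        · exact absurd (sub_eq_zero.1 h5) hne
        · exact h5
    apply hy
    refine LinearMap.ext fun w => ?_
    rw [coo_vec y w, h4.1, h4.2]
    simp
  by_cases hp0 : p 0 = 0
  · have hp1 : p 1 ≠ 0 := by
      intro h5
      apply hp
      funext i
      fin_cases i
      · exact hp0
      · exact h5
    refine ⟨v 1 / p 1, ?_⟩
    funext i
    fin_cases i
    · show v 0 = v 1 / p 1 * p 0
      rw [hp0, mul_zero]
      rw [hp0, mul_zero] at h3
      rcases mul_eq_zero.1 h3 with h5 | h5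
      · exact h5
      · exact absurd h5 hp1
    · show v 1 = v 1 / p 1 * p 1
      field_simp
  · refine ⟨v 0 / p 0, ?_⟩
    funext i
    fin_cases i
    · show v 0 = v 0 / p 0 * p 0
      field_simp
    · show v 1 = v 0 / p 0 * p 1
      field_simp
      linarith

theorem coo (h : Hyp X) (hν : Num ν) (hZ : NZ X) (hop : IsOpen (AmpV ν)) (R : Cart X → ℤ) (hR : RFun R)
    (p : Fin 2 → ℝ) (hp1 : p ∈ closure (AmpV ν)) (hp2 : p ∉ interior (EffV ν))
    (hp3 : ∀ t : ℝ, t ≠ 0 → ∀ s : Fin 2 → ℤ, t • p ≠ fun i => (s i : ℝ)) :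
    ∃ x y : (Fin 2 → ℝ) →ₗ[ℝ] ℝ, Coords ν p x y ∧ ∀ D : Cart X, x (cv ν D) = R D := by
  obtain ⟨x, hx⟩ := rlin h hν R hR
  obtain ⟨y, hyp, hye, hya⟩ := sup h hν hop p hp1 hp2
  obtain ⟨A, hA⟩ := h.amp
  have hxa : ∀ v ∈ AmpV ν, 0 < x v := by
    rintro _ ⟨m, c, D, hc, hD, rfl⟩
    rw [map_sum]
    refine Finset.sum_pos (fun i _ => ?_) ⟨0, Finset.mem_univ _⟩
    rw [map_smul, hx, smul_eq_mul]
    exact mul_pos (hc i) (by exact_mod_cast hR.amp _ (hD i))
  have hxe : ∀ v ∈ EffV ν, 0 ≤ x v := by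
    rintro _ ⟨m, c, D, hc, hD, rfl⟩
    rw [map_sum]
    refine Finset.sum_nonneg (fun i _ => ?_)
    rw [map_smul, hx, smul_eq_mul]
    exact mul_nonneg (hc i) (by exact_mod_cast hR.eff _ (hD i))
  have hp0 : p ≠ 0 := by
    rintro rfl
    refine hp3 1 one_ne_zero 0 ?_
    funext i
    simp
  have hy0 : y ≠ 0 := by
    rintro rfl
    have := hya _ (ampV_cv ν A hA)
    simp at this
  have hx0 : x ≠ 0 := by
    rintro rfl
    have := hxa _ (ampV_cv ν A hA)
    simp at this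
  have hxp0 : 0 ≤ x p := by
    have h5 : IsClosed {w : Fin 2 → ℝ | 0 ≤ x w} :=
      isClosed_le continuous_const (LinearMap.continuous_of_finiteDimensional x)
    have h6 : closure (AmpV ν) ⊆ {w : Fin 2 → ℝ | 0 ≤ x w} :=
      closure_minimal (fun w hw => (hxa w hw).le) h5
    exact h6 hp1
  have hxp : 0 < x p := by
    refine lt_of_le_of_ne hxp0 fun h0 => ?_
    obtain ⟨B, hB⟩ := cv_surj hν (Pi.single 0 1)
    obtain ⟨C, hC⟩ := cv_surj hν (Pi.single 1 1)
    have e0 : cv ν B = (Pi.single 0 1 : Fin 2 → ℝ) := by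
      rw [hB]
      funext i
      fin_cases i <;> simp
    have e1 : cv ν C = (Pi.single 1 1 : Fin 2 → ℝ) := by
      rw [hC]
      funext i
      fin_cases i <;> simp
    -- the integral vector in the kernel of `x`
    have hv : x ![(R C : ℝ), -(R B : ℝ)] = 0 := by
      rw [coo_vec x, ← e0, ← e1, hx, hx]
      simp
      ring
    have hv0 : (![(R C : ℝ), -(R B : ℝ)] : Fin 2 → ℝ) ≠ 0 := by
      intro h6
      have h7 : (R C : ℝ) = 0 := by
        have := congrFun h6 0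
        simpa using this
      have h8 : (R B : ℝ) = 0 := by
        have := congrFun h6 1
        simpa using this
      apply hx0
      refine LinearMap.ext fun w => ?_
      rw [coo_vec x w, ← e0, ← e1, hx, hx, h7, h8]
      simp
    obtain ⟨c, hc⟩ := coo_ker x hx0 p _ hp0 h0.symm hv
    have hc0 : c ≠ 0 := by
      rintro rfl
      rw [zero_smul] at hc
      exact hv0 hc
    refine hp3 c hc0 ![R C, -(R B)] ?_
    rw [← hc]
    funext i
    fin_cases i <;> simp
  have hinj : ∀ v, x v = 0 → y v = 0 → v = 0 := by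
    intro v h1 h2
    obtain ⟨c, hc⟩ := coo_ker y hy0 p v hp0 hyp h2
    rw [hc, map_smul, smul_eq_mul] at h1
    rcases mul_eq_zero.1 h1 with h3 | h3
    · rw [hc, h3, zero_smul]
    · exact absurd h3 hxp.ne'
  have hirr : ∀ D : Cart X, y (cv ν D) = 0 → cv ν D = 0 := by
    intro D hD
    obtain ⟨c, hc⟩ := coo_ker y hy0 p _ hp0 hyp hD
    by_cases hc0 : c = 0
    · rw [hc, hc0, zero_smul]
    · obtain ⟨s, hs⟩ := cv_int ν D
      exact absurd (hc.symm.trans hs) (hp3 c hc0 s)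
  refine ⟨x, y, ⟨hyp, hxp, hinj, fun D => ⟨R D, hx D⟩, hxe, hye, hxa, hya, fun D h1 h2 => ?_, hirr⟩, hx⟩
  refine lt_of_le_of_ne (hye _ (effV_cv ν D h1)) fun h3 => ?_
  exact eff_not_numz h hZ D h1 h2 ((cv_eq_zero hν D).1 (hirr D h3.symm))

end Pool.Agent.H41.TU
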