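import Pool.Agent.H41.TU.Mai
import Pool.Agent.H41.TU.Coo
import Pool.Agent.H20.TU.NZR
import Pool.Agent.H36.TU.AB
import Pool.Agent.H36.TU.VC

/-!
# [H41 TU Fin] Theorem U, clause (I): the proof
-/

set_option autoImplicit false

namespace Pool.Agent.H41.TU

open Pool.Agent.H54.RV Pool.Agent.H83.TU Pool.Agent.H39.TU

variable {k K : Type} [Field k] [Field K] [Algebra k K] {X : Mod k K}

theorem fin_ab [IsAlgClosed k] [CharZero k] (h : Hyp X) (hsm : ∀ x, SmP X x)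
    (ν : Cart X →* Multiplicative (Fin 2 → ℤ)) (hν : Num ν) (p : Fin 2 → ℝ)
    (hp1 : p ∈ closure (AmpV ν)) (hp2 : p ∉ interior (EffV ν))
    (hp3 : ∀ t : ℝ, t ≠ 0 → ∀ s : Fin 2 → ℤ, t • p ≠ fun i => (s i : ℝ)) :
    (∀ th : ℝ, 0 < th → ∃ (N : ℕ) (U : Set (Fin 2 → ℝ)), IsOpen U ∧ p ∈ U ∧
      ∀ D : Cart X, Indec ν D → (∃ t : ℝ, 0 < t ∧ t • cv ν D ∈ U) →
        (h0 D 1 : ℝ) ≤ max (N : ℝ) ((1 + th) * vol D)) ∧
    ∀ ξ : (Fin 2 → ℝ) →ₗ[ℝ] ℝ, 0 < ξ p → ∀ U : Set (Fin 2 → ℝ), IsOpen U → p ∈ U →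
      ∃ D : Cart X, Ample D ∧ (∃ t : ℝ, 0 < t ∧ t • cv ν D ∈ U) ∧ (h0 D 1 : ℝ) < vol D + ξ (cv ν D) := by
  have hG : GF X := Pool.Agent.H20.TU.gf h.var h.gen h.tr
  have hZ : NZ X := Pool.Agent.H20.TU.nzr h.var h.gen h.tr
  have hUN : UN X := un_all h.var
  have hUF : UF X := uf_all h.var
  have hop : IsOpen (AmpV ν) := Pool.Agent.H36.TU.ampV_open h.var hν
  have hac : AC ν := Pool.Agent.H36.TU.ac_holds h.var hν
  have hM : Mai X := mai_holds h hsm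
  obtain ⟨F, hF⟩ := exists_F0 h
  obtain ⟨x, y, hc, -⟩ := coo h hν hZ hop (RF h.var h.gen F) (rfun_rf h.var h.gen hUF F hF) p hp1 hp2 hp3
  obtain ⟨b, hb⟩ := Pool.Agent.H36.TU.exists_bas hν
  obtain ⟨C, hC, hV⟩ := Pool.Agent.H36.TU.vol_le h hν hG hUN hc b hb
  refine ⟨fun th hth => ?_, fun ξ hξ U hU hpU => ?_⟩
  · obtain ⟨N, U, h1, h2, h3⟩ := clU h hν hop hac hM hp1 hc th hth
    exact ⟨N, U, h1, h2, h3⟩
  · exact clb h hν hop hac hG hM hp1 hc b hb ⟨C, hC, fun m h1 h2 _ => hV m h1 h2⟩ ξ hξ U hU hpU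

end Pool.Agent.H41.TU
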