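import Pool.Agent.H41.TU.ClA

/-!
# [H41 TU ClB] Theorem U, clause (b)

`Vle ν x y b`: the volume bound (helper36, `vol_le`) for the divisors `b 0 ^ m 0 * b 1 ^ m 1`.

`clb`: for every linear form `ξ` with `ξ p > 0` and every open `U` containing `p` there is an ample `D` with `t • cv ν D ∈ U` for a `t > 0` and `h0 D 1 < vol D + ξ (cv ν D)`.
PROOF.  `C₁ > 0` of `hV`, `C₂ > 0` of `ism`.  Let `κ = ξ p / (2 * x p) > 0`.
(1) There is `δ₀ > 0` with: `v ∈ ℝ²`, `0 < y v < δ₀ * x v`, `x v > 0` imply `ξ v ≥ κ * x v` and `t • v ∈ U` for some `t > 0`.  Indeed let `w = (x p / x v) • v`: `x w = x p`, `0 < y w < δ₀ * x p`; the map `(x, y)` is injective, so a linear isomorphism of the plane (`hc.inj`), and `w → p` as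
`y w → 0` (`w - p` has `x = 0`, `y = y w`): write `w = p + (y w) • g`, where `g` is the vector with `x g = 0`, `y g = 1` (it exists: take an ample class `a` and `g = (1 / y a) • (a - (x a / x p) • p)`, `hc.yp`; `w = p + (y w) • g` by `hc.inj`).  `ξ w = ξ p + (y w) * ξ g ≥ ξ p / 2`
and `w ∈ U` if `y w` is small (`U` open, `t ↦ p + t • g` continuous).  `ξ v = (x v / x p) * ξ w ≥ κ * x v`.
(2) `th = κ / (2 * C₁ * C₂)`.  `N`, `δ` of `cla` for `th`.  `ism` with `N' = max (N / κ) (max 1 (1 / min δ δ₀))` and `η = 1`: `D₀` indecomposable, `y < 1`, `x > N'`, `x * y ≤ C₂`.  So `x ≥ 1`, `y < 1 < (min δ δ₀) * x`, `y ≤ x`, `y > 0` (`hc.yamp`, `Indec`).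
`D = b 0 ^ m 0 * b 1 ^ m 1` with `m = toAdd (ν D₀)`: `cv ν D = cv ν D₀` (`cv_mul`, `cv_zpow`, `hb`), so `Indec ν D` (`icg`), `D` ample (`hac`).
`vol D ≤ C₁ * x ^ 2 * y ≤ C₁ * C₂ * x` (`hV`).  (1): `ξ (cv ν D) ≥ κ * x`, `t • cv ν D ∈ U`.
Suppose `h0 D 1 ≥ vol D + ξ (cv ν D)`.  `vol D ≥ 0` (`vol_nonneg`: a limsup of nonnegative numbers which are bounded, or prove it from `hG`).  `h0 D 1 ≥ κ * x > N` (`x > N / κ`), so by `cla` `h0 D 1 ≤ (1 + th) * vol D`, so `κ * x ≤ ξ (cv ν D) ≤ th * vol D ≤ th * C₁ * C₂ * x = κ * x / 2`: a contradiction (`x > 0`).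
For `vol D ≥ 0`: `Filter.le_limsup_of_frequently_le` (or `le_limsup_of_le`), bounded above because of `hG.2` (`h0 D n / n ^ 3 ≤ C`).
-/

set_option autoImplicit false

namespace Pool.Agent.H41.TU

open Pool.Agent.H54.RV Pool.Agent.H83.TU

variable {k K : Type} [Field k] [Field K] [Algebra k K] {X : Mod k K}
  {ν : Cart X →* Multiplicative (Fin 2 → ℤ)} {p : Fin 2 → ℝ} {x y : (Fin 2 → ℝ) →ₗ[ℝ] ℝ}

theorem vol_nonneg (hG : GF X) (D : Cart X) : 0 ≤ vol D := by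
  obtain ⟨C, hC⟩ := hG.2 D
  unfold vol
  refine Filter.le_limsup_of_frequently_le (Filter.Eventually.frequently
    (Filter.Eventually.of_forall fun n => by positivity)) ?_
  refine Filter.isBoundedUnder_of_eventually_le (a := (C : ℝ)) ?_
  filter_upwards [Filter.eventually_ge_atTop 1] with n hn
  have hn0 : (0 : ℝ) < n := by exact_mod_cast hn
  rw [div_le_iff₀ (by positivity)]
  exact_mod_cast hC n hn

private theorem clb_near (hc : Coords ν p x y) (a : Fin 2 → ℝ) (ha : 0 < y a)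
    (ξ : (Fin 2 → ℝ) →ₗ[ℝ] ℝ) (hξ : 0 < ξ p) (U : Set (Fin 2 → ℝ)) (hU : IsOpen U) (hpU : p ∈ U) :
    ∃ δ : ℝ, 0 < δ ∧ ∀ v, 0 < x v → 0 < y v → y v < δ * x v →
      ξ p / (2 * x p) * x v ≤ ξ v ∧ ∃ t : ℝ, 0 < t ∧ t • v ∈ U := by
  have hxp := hc.xp
  obtain ⟨g, hg⟩ : ∃ g, g = (1 / y a) • (a - (x a / x p) • p) := ⟨_, rfl⟩
  have hxg : x g = 0 := by
    rw [hg, map_smul, map_sub, map_smul, smul_eq_mul, smul_eq_mul, div_mul_cancel₀ _ hxp.ne', sub_self,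
      mul_zero]
  have hyg : y g = 1 := by
    rw [hg, map_smul, map_sub, map_smul, smul_eq_mul, smul_eq_mul, hc.yp, mul_zero, sub_zero,
      one_div_mul_cancel ha.ne']
  have hV : IsOpen (U ∩ {w | ξ p / 2 < ξ w}) :=
    hU.inter (isOpen_lt continuous_const (LinearMap.continuous_of_finiteDimensional ξ))
  have hφ : Continuous fun s : ℝ => p + s • g := by fun_prop
  have hpre := hV.preimage hφ
  have h0 : (0 : ℝ) ∈ (fun s : ℝ => p + s • g) ⁻¹' (U ∩ {w | ξ p / 2 < ξ w}) := by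
    show p + (0 : ℝ) • g ∈ U ∩ {w | ξ p / 2 < ξ w}
    rw [zero_smul, add_zero]
    exact ⟨hpU, half_lt_self hξ⟩
  obtain ⟨ε, hε, hball⟩ := Metric.isOpen_iff.1 hpre 0 h0
  refine ⟨ε / x p, div_pos hε hxp, fun v hxv hyv hlt => ?_⟩
  obtain ⟨w, hw⟩ : ∃ w, w = (x p / x v) • v := ⟨_, rfl⟩
  have hxw : x w = x p := by
    rw [hw, map_smul, smul_eq_mul, div_mul_cancel₀ _ hxv.ne']
  have hyw : y w = x p / x v * y v := by
    rw [hw, map_smul, smul_eq_mul]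
  have hyw0 : 0 < y w := by rw [hyw]; positivity
  have hyw1 : y w < ε := by
    rw [hyw, div_mul_eq_mul_div, div_lt_iff₀ hxv]
    rw [div_mul_eq_mul_div, lt_div_iff₀ hxp] at hlt
    linarith
  have hwp : w = p + (y w) • g := by
    have h1 := hc.inj (w - (p + (y w) • g)) (by
      rw [map_sub, map_add, map_smul, hxg, hxw, smul_zero, add_zero, sub_self]) (by
      rw [map_sub, map_add, map_smul, hyg, hc.yp, smul_eq_mul, mul_one, zero_add, sub_self])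
    exact sub_eq_zero.1 h1
  have h2 : p + (y w) • g ∈ U ∩ {w | ξ p / 2 < ξ w} := by
    refine hball ?_
    rw [Metric.mem_ball, Real.dist_eq, sub_zero, abs_of_pos hyw0]
    exact hyw1
  rw [← hwp] at h2
  refine ⟨?_, x p / x v, div_pos hxp hxv, ?_⟩
  · have h3 : ξ p / 2 < ξ w := h2.2
    rw [hw, map_smul, smul_eq_mul] at h3
    have h4 : ξ p / (2 * x p) * x v = (x v / x p) * (ξ p / 2) := by
      field_simp
    have h5 : ξ v = (x v / x p) * (x p / x v * ξ v) := by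
      field_simp
    rw [h4, h5]
    exact mul_le_mul_of_nonneg_left h3.le (by positivity)
  · rw [← hw]
    exact h2.1

theorem clb (h : Hyp X) (hν : Num ν) (hop : IsOpen (AmpV ν)) (hac : AC ν) (hG : GF X) (hM : Mai X)
    (hp1 : p ∈ closure (AmpV ν)) (hc : Coords ν p x y) (b : Fin 2 → Cart X)
    (hb : ∀ i, cv ν (b i) = Pi.single i 1)
    (hV : ∃ C : ℝ, 0 < C ∧ ∀ m : Fin 2 → ℤ, 0 < y (cv ν (b 0 ^ m 0 * b 1 ^ m 1)) →
      y (cv ν (b 0 ^ m 0 * b 1 ^ m 1)) ≤ x (cv ν (b 0 ^ m 0 * b 1 ^ m 1)) →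
      1 ≤ x (cv ν (b 0 ^ m 0 * b 1 ^ m 1)) →
      vol (b 0 ^ m 0 * b 1 ^ m 1) ≤ C * x (cv ν (b 0 ^ m 0 * b 1 ^ m 1)) ^ 2 * y (cv ν (b 0 ^ m 0 * b 1 ^ m 1)))
    (ξ : (Fin 2 → ℝ) →ₗ[ℝ] ℝ) (hξ : 0 < ξ p) (U : Set (Fin 2 → ℝ)) (hU : IsOpen U) (hpU : p ∈ U) :
    ∃ D : Cart X, Ample D ∧ (∃ t : ℝ, 0 < t ∧ t • cv ν D ∈ U) ∧ (h0 D 1 : ℝ) < vol D + ξ (cv ν D) := by
  obtain ⟨C1, hC1, hV⟩ := hV
  obtain ⟨C2, hC2, hism⟩ := ism h hν hop hp1 hc
  obtain ⟨κ, hκ⟩ : ∃ κ, κ = ξ p / (2 * x p) := ⟨_, rfl⟩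
  have hκ0 : 0 < κ := by rw [hκ]; exact div_pos hξ (mul_pos two_pos hc.xp)
  obtain ⟨H, hH⟩ := h.amp
  obtain ⟨δ0, hδ0, hnear⟩ := clb_near hc (cv ν H) (hc.yamp _ (ampV_cv ν H hH)) ξ hξ U hU hpU
  obtain ⟨N, δ, hδ, hcla⟩ := cla h hν hop hac hM hp1 hc (κ / (2 * C1 * C2)) (by positivity)
  have hm0 : 0 < min δ δ0 := lt_min hδ hδ0
  obtain ⟨D0, hD0, hy1, hxN, hxy⟩ := hism (max (N / κ) (max 1 (1 / min δ δ0))) 1 one_pos
  rw [max_lt_iff, max_lt_iff] at hxN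
  obtain ⟨hx1, hx2, hx3⟩ := hxN
  obtain ⟨m, hm⟩ : ∃ m : Fin 2 → ℤ, m = Multiplicative.toAdd (ν D0) := ⟨_, rfl⟩
  obtain ⟨D, hD⟩ : ∃ D, D = b 0 ^ m 0 * b 1 ^ m 1 := ⟨_, rfl⟩
  have hcv : cv ν D = cv ν D0 := by
    rw [hD, cv_mul, cv_zpow, cv_zpow, hb, hb, hm]
    funext i
    fin_cases i <;> simp [cv]
  have hDi : Indec ν D := icg hcv.symm hD0
  have hDa : Ample D := hac D hDi.1
  have hy0 : 0 < y (cv ν D) := hc.yamp _ hDi.1
  rw [← hcv] at hy1 hx1 hx2 hx3 hxy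
  obtain ⟨X', hX'⟩ : ∃ X', X' = x (cv ν D) := ⟨_, rfl⟩
  obtain ⟨Y', hY'⟩ : ∃ Y', Y' = y (cv ν D) := ⟨_, rfl⟩
  have hvol := hV m
  rw [← hD, ← hX', ← hY'] at hvol
  rw [← hX'] at hx1 hx2 hx3 hxy
  rw [← hY'] at hy1 hy0 hxy
  have hmin : 1 < min δ δ0 * X' := by
    rw [div_lt_iff₀ hm0] at hx3
    linarith
  have hX0 : 0 < X' := by linarith
  have hyδ : Y' < δ * X' := by
    have : min δ δ0 * X' ≤ δ * X' := mul_le_mul_of_nonneg_right (min_le_left _ _) hX0.le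
    linarith
  have hyδ0 : Y' < δ0 * X' := by
    have : min δ δ0 * X' ≤ δ0 * X' := mul_le_mul_of_nonneg_right (min_le_right _ _) hX0.le
    linarith
  have hvol' := hvol hy0 (by linarith) hx2.le
  have hn := hnear (cv ν D) (by rw [← hX']; exact hX0) (by rw [← hY']; exact hy0)
    (by rw [← hX', ← hY']; exact hyδ0)
  rw [← hκ, ← hX'] at hn
  refine ⟨D, hDa, hn.2, ?_⟩
  by_contra hcon
  push Not at hcon
  have hv0 := vol_nonneg hG D
  have hκN : (N : ℝ) < κ * X' := by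
    rw [div_lt_iff₀ hκ0] at hx1
    linarith
  have h1 := hcla D hDi (by rw [← hX', ← hY']; exact hyδ)
  have h2 : (N : ℝ) < h0 D 1 := by linarith [hn.1]
  have h3 : (h0 D 1 : ℝ) ≤ (1 + κ / (2 * C1 * C2)) * vol D := by
    rcases le_max_iff.1 h1 with h4 | h4
    · linarith
    · exact h4
  have h4 : vol D ≤ C1 * C2 * X' := by
    have : C1 * X' ^ 2 * Y' = C1 * X' * (X' * Y') := by ring
    rw [this] at hvol'
    have h5 : C1 * X' * (X' * Y') ≤ C1 * X' * C2 := mul_le_mul_of_nonneg_left hxy (by positivity)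
    linarith
  have h5 : κ / (2 * C1 * C2) * vol D ≤ κ / (2 * C1 * C2) * (C1 * C2 * X') :=
    mul_le_mul_of_nonneg_left h4 (by positivity)
  have h6 : κ / (2 * C1 * C2) * (C1 * C2 * X') = κ * X' / 2 := by
    field_simp
  have h7 : 0 < κ * X' := mul_pos hκ0 hX0
  linarith [hn.1]

end Pool.Agent.H41.TU
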