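import Pool.Agent.H41.TU.Lin

/-!
# [H41 TU Bou] Theorem U, the plane: the bound of `x (cv ν D)` from a functional with an effective zero

`R` an `RFun`, `M` effective, `M⁻¹` not effective, `R M = 0`, `H` ample, `D` ample with `y_D ≤ y_H`: `x_D ≤ (R D + 1) * x_H`.

PROOF.  `r` of `rlin` for `R`.  `a = cv ν H`, `x a, y a > 0`, `R H ≥ 1` (integer, `hR.amp`), `R D ≥ 1`.  `r ≥ 0` on `AmpV ν` (sums with positive coefficients of `R (D i) > 0`), so `r p ≥ 0` (`p` in the closure; `r` continuous: `LinearMap.continuous_of_finiteDimensional`).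
(1) `e = y_D / y_H ∈ (0, 1]`, `c = (x_D - e * x_H) / x p`: `cv ν D = c • p + e • a` (`hc.inj`, `hc.yp`), so `R D = c * r p + e * R H ≥ c * r p`.
(2) `β = y_M / y_H > 0` (`hc.ypos`), `α = (β * x_H - x_M) / x p`: `cv ν M = β • a - α • p` (`hc.inj`), so `0 = R M = β * R H - α * r p`, `α * r p = β * R H ≥ β > 0`; with `r p ≥ 0`: `r p > 0` and `α > 0`.  `x_M ≥ 0` (`hc.xeff`, `effV_cv`): `α * x p ≤ β * x_H`.
(3) If `c ≤ 0`: `x_D ≤ e * x_H ≤ x_H ≤ (R D + 1) * x_H`.  If `c > 0`: `R D ≥ c * r p`, multiply by `α * x_H > 0`: `α * x_H * R D ≥ c * (α * r p) * x_H ≥ c * β * x_H ≥ c * α * x p`, so `c * x p ≤ R D * x_H` and `x_D = c * x p + e * x_H ≤ (R D + 1) * x_H`.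
-/

set_option autoImplicit false

namespace Pool.Agent.H41.TU

open Pool.Agent.H54.RV Pool.Agent.H83.TU

variable {k K : Type} [Field k] [Field K] [Algebra k K] {X : Mod k K}
  {ν : Cart X →* Multiplicative (Fin 2 → ℤ)} {p : Fin 2 → ℝ} {x y : (Fin 2 → ℝ) →ₗ[ℝ] ℝ}

theorem bou (h : Hyp X) (hν : Num ν) (hp1 : p ∈ closure (AmpV ν)) (hc : Coords ν p x y)
    (R : Cart X → ℤ) (hR : RFun R) (M : Cart X) (hM : Effective M) (hM' : ¬ Effective M⁻¹) (hRM : R M = 0)
    (H : Cart X) (hH : Ample H) (D : Cart X) (hD : Ample D) (hy : y (cv ν D) ≤ y (cv ν H)) :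
    x (cv ν D) ≤ (R D + 1) * x (cv ν H) := by
  obtain ⟨r, hr⟩ := rlin h hν R hR
  have ha := ampV_cv ν H hH
  have hd := ampV_cv ν D hD
  have hxH := hc.xamp _ ha
  have hyH := hc.yamp _ ha
  have hyD := hc.yamp _ hd
  have hxp := hc.xp
  have hyM := hc.ypos M hM hM'
  have hxM := hc.xeff _ (effV_cv ν M hM)
  have hRH : (1 : ℝ) ≤ R H := by exact_mod_cast hR.amp H hH
  have hRD : (1 : ℝ) ≤ R D := by exact_mod_cast hR.amp D hD
  have hrp : 0 ≤ r p := by
    have hcl : IsClosed {v : Fin 2 → ℝ | 0 ≤ r v} :=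
      isClosed_le continuous_const (LinearMap.continuous_of_finiteDimensional r)
    have hsub : AmpV ν ⊆ {v : Fin 2 → ℝ | 0 ≤ r v} := by
      rintro _ ⟨m, c, E, hc', hE, rfl⟩
      show 0 ≤ r _
      rw [map_sum]
      refine Finset.sum_nonneg fun i _ => ?_
      rw [map_smul, hr, smul_eq_mul]
      exact mul_nonneg (hc' i).le (by exact_mod_cast (hR.amp _ (hE i)).le)
    exact closure_minimal hsub hcl hp1
  have key : ∀ v, r v = (x v - y v / y (cv ν H) * x (cv ν H)) / x p * r p + y v / y (cv ν H) * R H := by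
    intro v
    have h1 : v = ((x v - y v / y (cv ν H) * x (cv ν H)) / x p) • p + (y v / y (cv ν H)) • cv ν H := by
      rw [← sub_eq_zero]
      apply hc.inj
      · rw [map_sub, map_add, map_smul, map_smul, smul_eq_mul, smul_eq_mul]
        field_simp
        ring
      · rw [map_sub, map_add, map_smul, map_smul, smul_eq_mul, smul_eq_mul, hc.yp]
        field_simp
        ring
    conv_lhs => rw [h1]
    rw [map_add, map_smul, map_smul, smul_eq_mul, smul_eq_mul, hr]
  have hD1 := key (cv ν D)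
  have hM1 := key (cv ν M)
  rw [hr] at hD1 hM1
  rw [hRM, Int.cast_zero] at hM1
  obtain ⟨e, he⟩ : ∃ e, e = y (cv ν D) / y (cv ν H) := ⟨_, rfl⟩
  obtain ⟨β, hβ⟩ : ∃ β, β = y (cv ν M) / y (cv ν H) := ⟨_, rfl⟩
  obtain ⟨c, hcd⟩ : ∃ c, c = (x (cv ν D) - e * x (cv ν H)) / x p := ⟨_, rfl⟩
  obtain ⟨α, hα⟩ : ∃ α, α = -((x (cv ν M) - β * x (cv ν H)) / x p) := ⟨_, rfl⟩
  rw [← he, ← hcd] at hD1
  rw [← hβ] at hM1
  have hβ0 : 0 < β := hβ ▸ div_pos hyM hyH
  have he0 : 0 < e := he ▸ div_pos hyD hyH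
  have he1 : e ≤ 1 := by
    rw [he, div_le_one hyH]
    exact hy
  have hαr : α * r p = β * R H := by
    rw [hα]
    linarith
  have hβR : β ≤ β * R H := by nlinarith
  have hαp : 0 < α := by
    by_contra hcon
    have h2 : α * r p ≤ 0 := mul_nonpos_of_nonpos_of_nonneg (not_lt.1 hcon) hrp
    linarith
  have hαx : α * x p = β * x (cv ν H) - x (cv ν M) := by
    rw [hα]
    field_simp
    ring
  have hcx : x (cv ν D) = c * x p + e * x (cv ν H) := by
    rw [hcd]
    field_simp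
    ring
  have hex : e * x (cv ν H) ≤ x (cv ν H) := by nlinarith
  rcases le_or_gt c 0 with h1 | h1
  · have h2 : c * x p ≤ 0 := mul_nonpos_of_nonpos_of_nonneg h1 hxp.le
    have h3 : 0 ≤ (R D : ℝ) * x (cv ν H) := by positivity
    nlinarith
  · have h2 : c * r p ≤ R D := by
      have : 0 ≤ e * R H := by positivity
      linarith
    have h3 : c * x p ≤ R D * x (cv ν H) := by
      have h4 : α * (c * x p) ≤ α * (R D * x (cv ν H)) := by
        calc α * (c * x p) = c * (α * x p) := by ring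
          _ = c * (β * x (cv ν H) - x (cv ν M)) := by rw [hαx]
          _ ≤ c * (β * x (cv ν H)) := mul_le_mul_of_nonneg_left (by linarith) h1.le
          _ ≤ c * (β * R H * x (cv ν H)) := by
            refine mul_le_mul_of_nonneg_left ?_ h1.le
            exact mul_le_mul_of_nonneg_right hβR hxH.le
          _ = c * (α * r p * x (cv ν H)) := by rw [hαr]
          _ = (c * r p) * (α * x (cv ν H)) := by ring
          _ ≤ R D * (α * x (cv ν H)) := mul_le_mul_of_nonneg_right h2 (by positivity)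
          _ = α * (R D * x (cv ν H)) := by ring
      exact le_of_mul_le_mul_left h4 hαp
    rw [hcx]
    linarith

end Pool.Agent.H41.TU
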