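import Pool.Agent.H41.TU.Cnp
import Pool.Agent.H83.TU.SP

/-!
# [H41 TU Sta] Theorem U, the plane: the sections of an indecomposable divisor near `p` have no double component

There is `η > 0` such that `Star D` for every indecomposable `D` with `y (cv ν D) < η`.

PROOF.  `ε` of `con`, `η₁` of `dcv` for `N = 1 / ε`, `η = min η₁ 1`.  Let `D` be indecomposable, `y_D < η`, `P` a prime divisor, `s ≠ 0` a section of `D` with `ord (s * D.eq P.η) ≥ 2`.
`split_of_ord`: `S`, `T` effective, `S⁻¹`, `T⁻¹` not effective, `S * T = prin s * D`.  `cv ν S + cv ν T = cv ν (prin s) + cv ν D = cv ν D` (`cv_mul`, `cv_prin`).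
`hc.ypos`: `y_S > 0`, `y_T > 0`, so `y_S, y_T < y_D < η`.  `x_S, x_T ≥ 0` (`hc.xeff`, `effV_cv`).  So `x_S > 1 / ε`, `y_S < 1 < ε * x_S` and `cv ν S ∈ AmpV ν`; the same for `T`.  This contradicts `Indec ν D`.
-/

set_option autoImplicit false

namespace Pool.Agent.H41.TU

open Pool.Agent.H54.RV Pool.Agent.H83.TU

variable {k K : Type} [Field k] [Field K] [Algebra k K] {X : Mod k K}
  {ν : Cart X →* Multiplicative (Fin 2 → ℤ)} {p : Fin 2 → ℝ} {x y : (Fin 2 → ℝ) →ₗ[ℝ] ℝ}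

theorem sta (h : Hyp X) (hν : Num ν) (hop : IsOpen (AmpV ν)) (hp1 : p ∈ closure (AmpV ν))
    (hc : Coords ν p x y) :
    ∃ η : ℝ, 0 < η ∧ ∀ D : Cart X, Indec ν D → y (cv ν D) < η → Star D := by
  obtain ⟨ε, hε, hcon⟩ := con h hop hp1 hc
  obtain ⟨η₁, h1, h2⟩ := dcv hc (1 / ε)
  refine ⟨min η₁ 1, lt_min h1 one_pos, fun D hD hy P s hs hsec => ?_⟩
  by_contra hcon2
  push Not at hcon2
  obtain ⟨S, T, hS, hT, hS', hT', hST⟩ := split_of_ord h D P s hs hsec (by omega)
  have h3 : cv ν S + cv ν T = cv ν D := by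
    rw [← cv_mul, hST, cv_mul, cv_prin hν, zero_add]
  have hyS := hc.ypos S hS hS'
  have hyT := hc.ypos T hT hT'
  have hxS := hc.xeff _ (effV_cv ν S hS)
  have hxT := hc.xeff _ (effV_cv ν T hT)
  have h4 : y (cv ν S) + y (cv ν T) = y (cv ν D) := by rw [← map_add, h3]
  have key : ∀ E : Cart X, 0 < y (cv ν E) → y (cv ν E) < y (cv ν D) → 0 ≤ x (cv ν E) → cv ν E ∈ AmpV ν := by
    intro E h5 h6 h7
    have h8 := h2 E h5 (h6.trans (hy.trans_le (min_le_left _ _))) h7
    refine hcon _ h5 ?_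
    have h9 : 1 < ε * x (cv ν E) := by
      rw [div_lt_iff₀ hε] at h8
      linarith
    exact (h6.trans (hy.trans_le (min_le_right _ _))).trans h9
  exact hD.2 S T (key S hyS (by linarith) hxS) (key T hyT (by linarith) hxT) h3

end Pool.Agent.H41.TU
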