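import Pool.Agent.H41.TU.Ind
import Pool.Agent.H41.TU.Sta
import Pool.Agent.H41.TU.Bou

/-!
# [H41 TU ClA] Theorem U, clause (a)

`Mai X`: the result of Theorems I and II (helper24, helper39): an ample divisor `D` with `Star D`, `h0 D 1 > N` and `h0 D 1 > (1 + th) * vol D` has a functional `R` with `R D ≤ γ` and an effective `M`, `M⁻¹` not effective, `R M = 0`.

`cla`: for every `th > 0` there are `N`, `δ > 0` such that every indecomposable `D` with `y < δ * x` has `h0 D 1 ≤ max N ((1 + th) * vol D)`.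
PROOF.  `N`, `γ` of `Mai X` for `th`.  `H` ample (`h.amp`), `x_H, y_H > 0`.  `η₀` of `sta`.  `B = (γ + 1) * x_H`, `η₁` of `dcv` for `B`.  `η = min η₀ (min η₁ y_H)`, `δ` of `isl` for `η`.
Let `D` be indecomposable with `y_D < δ * x_D`; `y_D < η` (`isl`).  `D` is ample (`hac : AC ν`, `cv ν D ∈ AmpV ν`), `Star D` (`sta`).  Suppose `h0 D 1 > N` and `h0 D 1 > (1 + th) * vol D`.
`Mai X`: `R`, `M`; `bou`: `x_D ≤ (R D + 1) * x_H ≤ (γ + 1) * x_H = B`.  But `0 < y_D < η₁`, `x_D ≥ 0`, so `x_D > B` (`dcv`): a contradiction.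

`clU`: the same with a neighbourhood of `p`: `U = {v | y v < δ * x v}` is open, contains `p` (`y p = 0 < δ * x p`), and `t • cv ν D ∈ U` with `t > 0` implies `y_D < δ * x_D`.
-/

set_option autoImplicit false

namespace Pool.Agent.H41.TU

open Pool.Agent.H54.RV Pool.Agent.H83.TU

variable {k K : Type} [Field k] [Field K] [Algebra k K]

/-- the result of Theorems I and II -/
def Mai (X : Mod k K) : Prop :=
  ∀ th : ℝ, 0 < th → ∃ N γ : ℕ, ∀ D : Cart X, Ample D → Star D → N < h0 D 1 → (1 + th) * vol D < h0 D 1 →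
    ∃ R : Cart X → ℤ, RFun R ∧ R D ≤ γ ∧ ∃ M : Cart X, Effective M ∧ ¬ Effective M⁻¹ ∧ R M = 0

variable {X : Mod k K} {ν : Cart X →* Multiplicative (Fin 2 → ℤ)} {p : Fin 2 → ℝ}
  {x y : (Fin 2 → ℝ) →ₗ[ℝ] ℝ}

theorem cla (h : Hyp X) (hν : Num ν) (hop : IsOpen (AmpV ν)) (hac : AC ν) (hM : Mai X)
    (hp1 : p ∈ closure (AmpV ν)) (hc : Coords ν p x y) (th : ℝ) (hth : 0 < th) :
    ∃ N : ℕ, ∃ δ : ℝ, 0 < δ ∧ ∀ D : Cart X, Indec ν D → y (cv ν D) < δ * x (cv ν D) →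
      (h0 D 1 : ℝ) ≤ max (N : ℝ) ((1 + th) * vol D) := by
  obtain ⟨N, γ, hNγ⟩ := hM th hth
  obtain ⟨H, hH⟩ := h.amp
  have hxH := hc.xamp _ (ampV_cv ν H hH)
  have hyH := hc.yamp _ (ampV_cv ν H hH)
  obtain ⟨η0, hη0, hsta⟩ := sta h hν hop hp1 hc
  obtain ⟨η1, hη1, hdcv⟩ := dcv hc (((γ : ℝ) + 1) * x (cv ν H))
  obtain ⟨δ, hδ, hisl⟩ := isl h hν hop hp1 hc (min η0 (min η1 (y (cv ν H))))
    (lt_min hη0 (lt_min hη1 hyH))
  refine ⟨N, δ, hδ, fun D hD hyD => ?_⟩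
  have hy := hisl D hD hyD
  rw [lt_min_iff, lt_min_iff] at hy
  have hDa := hac D hD.1
  by_contra hcon
  push Not at hcon
  rw [max_lt_iff] at hcon
  obtain ⟨R, hR, hRD, M, hM1, hM2, hM3⟩ := hNγ D hDa (hsta D hD hy.1) (by exact_mod_cast hcon.1) hcon.2
  have h1 := bou h hν hp1 hc R hR M hM1 hM2 hM3 H hH D hDa hy.2.2.le
  have h2 := hdcv D (hc.yamp _ hD.1) hy.2.1 (hc.xamp _ hD.1).le
  have h3 : (R D : ℝ) ≤ γ := by exact_mod_cast hRD
  nlinarith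

theorem clU (h : Hyp X) (hν : Num ν) (hop : IsOpen (AmpV ν)) (hac : AC ν) (hM : Mai X)
    (hp1 : p ∈ closure (AmpV ν)) (hc : Coords ν p x y) (th : ℝ) (hth : 0 < th) :
    ∃ N : ℕ, ∃ U : Set (Fin 2 → ℝ), IsOpen U ∧ p ∈ U ∧ ∀ D : Cart X, Indec ν D →
      (∃ t : ℝ, 0 < t ∧ t • cv ν D ∈ U) → (h0 D 1 : ℝ) ≤ max (N : ℝ) ((1 + th) * vol D) := by
  obtain ⟨N, δ, hδ, h1⟩ := cla h hν hop hac hM hp1 hc th hth
  refine ⟨N, {v | y v < δ * x v}, ?_, ?_, ?_⟩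
  · exact isOpen_lt (LinearMap.continuous_of_finiteDimensional y)
      (continuous_const.mul (LinearMap.continuous_of_finiteDimensional x))
  · show y p < δ * x p
    rw [hc.yp]
    exact mul_pos hδ hc.xp
  · rintro D hD ⟨t, ht, htU⟩
    refine h1 D hD ?_
    have h2 : y (t • cv ν D) < δ * x (t • cv ν D) := htU
    rw [map_smul, map_smul, smul_eq_mul, smul_eq_mul, mul_left_comm] at h2
    exact lt_of_mul_lt_mul_left h2 ht.le

end Pool.Agent.H41.TU
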