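import Mathlib

/-!
# [H41 TU Dis] Theorem U, the plane: discreteness of the lattice

`x`, `y` two linear forms on `ℝ²` whose common kernel is `0`.  For every `N` there is `η > 0` such that an integral vector with `0 < y < η`, `x ≥ 0` has `x > N`.

PROOF.  `T = {s : Fin 2 → ℤ | |x s| ≤ |N| + 1 ∧ |y s| ≤ 1}` is finite: the linear map `L = (x, y) : (Fin 2 → ℝ) → ℝ × ℝ` is injective (`hinj`), so by finite dimension there is `c > 0` with
`‖v‖ ≤ c * ‖L v‖` (`LinearMap.exists_antilipschitzWith`, or: the inverse of the linear equivalence `LinearEquiv.ofInjectiveEndo` is continuous; or by hand: Cramer's rule expresses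
`v 0`, `v 1` by `x v`, `y v` with the determinant `x e₀ * y e₁ - x e₁ * y e₀ ≠ 0`, which is nonzero because otherwise `v = (y e₁, - y e₀)` (or `(x e₁, - x e₀)`, if this is `0`) is a nonzero common zero).
So `|s i| ≤ c * (|N| + 2)` for `s ∈ T`, and `T` is finite (`Set.Finite.subset` of `Set.Finite.pi` of `Set.finite_Icc`, or `Fintype.piFinset`).
Let `T⁺ = {s ∈ T | 0 < y s}` (finite).  `η = min 1 (minimum of the y s, s ∈ T⁺)` (if `T⁺` is empty `η = 1`; `Finset.exists_min_image` or induction on the finite set: every finite set of positive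
reals has a positive lower bound).  If `0 < y s < η`, `0 ≤ x s ≤ N` then `s ∈ T⁺`, so `y s ≥ η`: contradiction.
-/

set_option autoImplicit false

namespace Pool.Agent.H41.TU

private theorem dis_fin {ι : Type} (f : ι → ℝ) (T : Finset ι) :
    ∃ η : ℝ, 0 < η ∧ ∀ s ∈ T, 0 < f s → η ≤ f s := by
  classical
  induction T using Finset.induction_on with
  | empty => exact ⟨1, one_pos, by simp⟩
  | insert a T _ ih =>
    obtain ⟨η, h0, h1⟩ := ih
    by_cases ha : 0 < f a
    · refine ⟨min η (f a), lt_min h0 ha, fun s hs hp => ?_⟩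
      rcases Finset.mem_insert.1 hs with rfl | hs
      · exact min_le_right _ _
      · exact (min_le_left _ _).trans (h1 s hs hp)
    · refine ⟨η, h0, fun s hs hp => ?_⟩
      rcases Finset.mem_insert.1 hs with rfl | hs
      · exact absurd hp ha
      · exact h1 s hs hp

private theorem dis_lin (x : (Fin 2 → ℝ) →ₗ[ℝ] ℝ) (v : Fin 2 → ℝ) :
    x v = v 0 * x (Pi.single 0 1) + v 1 * x (Pi.single 1 1) := by
  have h : v = v 0 • Pi.single 0 1 + v 1 • Pi.single 1 1 := by
    ext i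
    fin_cases i <;> simp
  conv_lhs => rw [h]
  rw [map_add, map_smul, map_smul, smul_eq_mul, smul_eq_mul]

theorem dis (x y : (Fin 2 → ℝ) →ₗ[ℝ] ℝ) (hinj : ∀ v, x v = 0 → y v = 0 → v = 0) (N : ℝ) :
    ∃ η : ℝ, 0 < η ∧ ∀ s : Fin 2 → ℤ, 0 < y (fun i => (s i : ℝ)) → y (fun i => (s i : ℝ)) < η →
      0 ≤ x (fun i => (s i : ℝ)) → N < x (fun i => (s i : ℝ)) := by
  obtain ⟨x0, hx0⟩ : ∃ x0, x0 = x (Pi.single 0 1) := ⟨_, rfl⟩
  obtain ⟨x1, hx1⟩ : ∃ x1, x1 = x (Pi.single 1 1) := ⟨_, rfl⟩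
  obtain ⟨y0, hy0⟩ : ∃ y0, y0 = y (Pi.single 0 1) := ⟨_, rfl⟩
  obtain ⟨y1, hy1⟩ : ∃ y1, y1 = y (Pi.single 1 1) := ⟨_, rfl⟩
  have hx : ∀ v, x v = v 0 * x0 + v 1 * x1 := fun v => by rw [hx0, hx1]; exact dis_lin x v
  have hy : ∀ v, y v = v 0 * y0 + v 1 * y1 := fun v => by rw [hy0, hy1]; exact dis_lin y v
  have hdet : x0 * y1 - x1 * y0 ≠ 0 := by
    intro h
    have h1 := hinj ![y1, -y0] (by rw [hx]; simp; linarith) (by rw [hy]; simp; ring)
    have h2 := hinj ![x1, -x0] (by rw [hx]; simp; ring) (by rw [hy]; simp; linarith)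
    have e1 : y1 = 0 := congrFun h1 0
    have e2 : -y0 = 0 := congrFun h1 1
    have e3 : x1 = 0 := congrFun h2 0
    have e4 : -x0 = 0 := congrFun h2 1
    have h3 := hinj (Pi.single 0 1) (by rw [← hx0]; linarith) (by rw [← hy0]; linarith)
    have h4 := congrFun h3 0
    simp at h4
  obtain ⟨B, hB⟩ := exists_nat_ge (((|y1| + |y0|) * |N| + (|x1| + |x0|)) / |x0 * y1 - x1 * y0|)
  have hfin : {s : Fin 2 → ℤ | ∀ i, |s i| ≤ (B : ℤ)}.Finite := by
    refine (Set.finite_Icc (fun _ : Fin 2 => -(B : ℤ)) (fun _ => (B : ℤ))).subset fun s hs => ?_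
    exact ⟨fun i => (abs_le.1 (hs i)).1, fun i => (abs_le.1 (hs i)).2⟩
  obtain ⟨η, h0, h1⟩ := dis_fin (fun s : Fin 2 → ℤ => y (fun i => (s i : ℝ))) hfin.toFinset
  refine ⟨min η 1, lt_min h0 one_pos, fun s hs1 hs2 hs3 => ?_⟩
  by_contra hcon
  push Not at hcon
  rw [lt_min_iff] at hs2
  have hN : x (fun i => (s i : ℝ)) ≤ |N| := hcon.trans (le_abs_self N)
  have hd : 0 < |x0 * y1 - x1 * y0| := abs_pos.2 hdet
  rw [div_le_iff₀ hd] at hB
  have hmem : s ∈ hfin.toFinset := by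
    rw [Set.Finite.mem_toFinset]
    have key : ∀ i, |(s i : ℝ)| * |x0 * y1 - x1 * y0| ≤
        (|y1| + |y0|) * |N| + (|x1| + |x0|) := by
      have hxs := hx (fun i => (s i : ℝ))
      have hys := hy (fun i => (s i : ℝ))
      obtain ⟨X, hX⟩ : ∃ X, X = x (fun i => (s i : ℝ)) := ⟨_, rfl⟩
      obtain ⟨Y, hY⟩ : ∃ Y, Y = y (fun i => (s i : ℝ)) := ⟨_, rfl⟩
      rw [← hX] at hxs hN hs3
      rw [← hY] at hys hs1 hs2
      have hX1 : |X| ≤ |N| := by rw [abs_of_nonneg hs3]; exact hN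
      have hY1 : |Y| ≤ 1 := by rw [abs_of_pos hs1]; exact hs2.2.le
      intro i
      rw [← abs_mul]
      have b1 := mul_le_mul_of_nonneg_left hX1 (abs_nonneg y1)
      have b2 := mul_le_mul_of_nonneg_left hX1 (abs_nonneg y0)
      have b3 := mul_le_mul_of_nonneg_left hY1 (abs_nonneg x1)
      have b4 := mul_le_mul_of_nonneg_left hY1 (abs_nonneg x0)
      have b5 := mul_nonneg (abs_nonneg y1) (abs_nonneg N)
      have b6 := mul_nonneg (abs_nonneg y0) (abs_nonneg N)
      have b7 := abs_nonneg x0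
      have b8 := abs_nonneg x1
      fin_cases i
      · have e : ((s 0 : ℤ) : ℝ) * (x0 * y1 - x1 * y0) = y1 * X - x1 * Y := by
          rw [hxs, hys]
          ring
        show |((s 0 : ℤ) : ℝ) * (x0 * y1 - x1 * y0)| ≤ _
        rw [e]
        have := abs_sub (y1 * X) (x1 * Y)
        rw [abs_mul, abs_mul] at this
        linarith
      · have e : ((s 1 : ℤ) : ℝ) * (x0 * y1 - x1 * y0) = x0 * Y - y0 * X := by
          rw [hxs, hys]
          ring
        show |((s 1 : ℤ) : ℝ) * (x0 * y1 - x1 * y0)| ≤ _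
        rw [e]
        have := abs_sub (x0 * Y) (y0 * X)
        rw [abs_mul, abs_mul] at this
        linarith
    intro i
    have h2 := (mul_le_mul_iff_of_pos_right hd).1 ((key i).trans hB)
    exact_mod_cast h2
  have h3 := h1 s hmem hs1
  linarith

end Pool.Agent.H41.TU
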