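import Pool.Agent.H41.TU.Dio
import Pool.Agent.H41.TU.Dis
import Pool.Agent.H83.TU.NV

/-!
# [H41 TU Cnp] Theorem U, the plane: the ample cone near `p`, small classes, discreteness

`con`: there is `ε > 0` such that `0 < y v < ε * x v` implies `v ∈ AmpV ν`.
PROOF.  `A` ample (`h.amp`), `a = cv ν A ∈ AmpV ν`, `x a > 0`, `y a > 0`; `ε = y a / x a`.  Let `0 < y v < ε * x v`.  `e = y v / y a > 0`, `c = (x v - e * x a) / x p > 0`.  `v = c • p + e • a` by `hc.inj` (both forms vanish on the difference: `hc.yp`).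
`AmpV ν` is open and `(e / c) • a ∈ AmpV ν` (`ampV_smul`), `p` is in its closure: there is `q ∈ AmpV ν` so near to `p` that `(e / c) • a + (p - q) ∈ AmpV ν` (`mem_closure_iff_nhds`, continuity of `q ↦ (e / c) • a + (p - q)` at `q = p`).
So `(e / c) • a + p = ((e / c) • a + (p - q)) + q ∈ AmpV ν` (`ampV_add`) and `v = c • ((e / c) • a + p) ∈ AmpV ν`.

`sma`: there is `C` such that for all `η > 0` there is `D : Cart X` with `0 < y < η`, `0 < x`, `x * y ≤ C` (at `cv ν D`).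
PROOF.  `dio` with `α = y e₀`, `β = y e₁` (`e_j = Pi.single j 1`), `m`, `n` the integers `x e₀`, `x e₁` (`hc.xint` for divisors with the classes `e_j`: `cv_surj`).  `y (a, b) = α a + β b` and the same for `x` (write the vector as `a • e₀ + b • e₁`).
`Δ ≠ 0`: otherwise `v = (n, -m)` has `x v = m n - n m = 0`, `y v = α n - β m = 0`, so `v = 0`, `m = n = 0`, and then `(β, -α)` is killed by `x` and `y`, so `α = β = 0`, `x = y = 0`: against `hc.xp`.
`hirr`: `y (cv ν D) = 0` implies `cv ν D = 0` (`hc.yirr`; `cv_surj`).  The vector `(a, b)` is `cv ν D` for a `D` (`cv_surj`).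

`dcv`: `dis` for the classes of divisors (`cv_int`).
-/

set_option autoImplicit false

namespace Pool.Agent.H41.TU

open Pool.Agent.H54.RV Pool.Agent.H83.TU

variable {k K : Type} [Field k] [Field K] [Algebra k K] {X : Mod k K}
  {ν : Cart X →* Multiplicative (Fin 2 → ℤ)} {p : Fin 2 → ℝ} {x y : (Fin 2 → ℝ) →ₗ[ℝ] ℝ}

theorem con (h : Hyp X) (hop : IsOpen (AmpV ν)) (hp1 : p ∈ closure (AmpV ν)) (hc : Coords ν p x y) :
    ∃ ε : ℝ, 0 < ε ∧ ∀ v, 0 < y v → y v < ε * x v → v ∈ AmpV ν := by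
  obtain ⟨A, hA⟩ := h.amp
  obtain ⟨a, ha⟩ : ∃ a, a = cv ν A := ⟨_, rfl⟩
  have haA : a ∈ AmpV ν := by
    rw [ha]
    exact ampV_cv ν A hA
  have hxa := hc.xamp a haA
  have hya := hc.yamp a haA
  have hxp := hc.xp
  refine ⟨y a / x a, div_pos hya hxa, fun v hv1 hv2 => ?_⟩
  obtain ⟨e, he⟩ : ∃ e, e = y v / y a := ⟨_, rfl⟩
  obtain ⟨c, hcc⟩ : ∃ c, c = (x v - e * x a) / x p := ⟨_, rfl⟩
  have he0 : 0 < e := by
    rw [he]
    exact div_pos hv1 hya
  have hey : e * y a = y v := by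
    rw [he]
    field_simp
  have hex : e * x a < x v := by
    have h1 : e * x a = y v * (x a / y a) := by
      rw [he]
      field_simp
    have h2 : y v * (x a / y a) < y a / x a * x v * (x a / y a) :=
      mul_lt_mul_of_pos_right hv2 (div_pos hxa hya)
    have h3 : y a / x a * x v * (x a / y a) = x v := by
      field_simp
    rw [h3] at h2
    rwa [h1]
  have hc0 : 0 < c := by
    rw [hcc]
    exact div_pos (by linarith) hxp
  have hcx : c * x p = x v - e * x a := by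
    rw [hcc]
    field_simp
  have hv : v = c • p + e • a := by
    have h1 := hc.inj (v - (c • p + e • a)) (by
      rw [map_sub, map_add, map_smul, map_smul, smul_eq_mul, smul_eq_mul, hcx]
      ring) (by
      rw [map_sub, map_add, map_smul, map_smul, smul_eq_mul, smul_eq_mul, hc.yp, hey]
      ring)
    exact sub_eq_zero.1 h1
  have h1 : (e / c) • a ∈ AmpV ν := ampV_smul (div_pos he0 hc0) haA
  have hcont : Continuous fun q : Fin 2 → ℝ => (e / c) • a + (p - q) := by fun_prop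
  have hnb : {q : Fin 2 → ℝ | (e / c) • a + (p - q) ∈ AmpV ν} ∈ nhds p := by
    refine (hop.preimage hcont).mem_nhds ?_
    show (e / c) • a + (p - p) ∈ AmpV ν
    rwa [sub_self, add_zero]
  obtain ⟨q, hq1, hq2⟩ := mem_closure_iff_nhds.1 hp1 _ hnb
  have h2 : (e / c) • a + p ∈ AmpV ν := by
    have h3 := ampV_add hq1 hq2
    have h4 : (e / c) • a + (p - q) + q = (e / c) • a + p := by
      rw [add_assoc, sub_add_cancel]
    rwa [h4] at h3
  have h3 := ampV_smul hc0 h2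
  rw [smul_add, smul_smul, mul_div_cancel₀ _ hc0.ne', add_comm, ← hv] at h3
  exact h3

private theorem cnp_lin (x : (Fin 2 → ℝ) →ₗ[ℝ] ℝ) (v : Fin 2 → ℝ) :
    x v = v 0 * x (Pi.single 0 1) + v 1 * x (Pi.single 1 1) := by
  have h : v = v 0 • Pi.single 0 1 + v 1 • Pi.single 1 1 := by
    ext i
    fin_cases i <;> simp
  conv_lhs => rw [h]
  rw [map_add, map_smul, map_smul, smul_eq_mul, smul_eq_mul]

private theorem cnp_single (hν : Num ν) (i : Fin 2) :
    ∃ B : Cart X, cv ν B = (Pi.single i 1 : Fin 2 → ℝ) := by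
  obtain ⟨B, hB⟩ := cv_surj hν (Pi.single i 1)
  refine ⟨B, ?_⟩
  rw [hB]
  funext j
  by_cases hj : j = i
  · subst hj
    simp
  · simp [Pi.single_eq_of_ne hj]

theorem sma (hν : Num ν) (hc : Coords ν p x y) :
    ∃ C : ℝ, ∀ η : ℝ, 0 < η → ∃ D : Cart X, 0 < y (cv ν D) ∧ y (cv ν D) < η ∧ 0 < x (cv ν D) ∧
      x (cv ν D) * y (cv ν D) ≤ C := by
  obtain ⟨B0, hB0⟩ := cnp_single (X := X) hν 0
  obtain ⟨B1, hB1⟩ := cnp_single (X := X) hν 1
  obtain ⟨m, hm⟩ := hc.xint B0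
  obtain ⟨n, hn⟩ := hc.xint B1
  rw [hB0] at hm
  rw [hB1] at hn
  obtain ⟨α, hα⟩ : ∃ α, α = y (Pi.single 0 1) := ⟨_, rfl⟩
  obtain ⟨β, hβ⟩ : ∃ β, β = y (Pi.single 1 1) := ⟨_, rfl⟩
  have hx : ∀ v, x v = v 0 * m + v 1 * n := fun v => by rw [cnp_lin x v, hm, hn]
  have hy : ∀ v, y v = v 0 * α + v 1 * β := fun v => by rw [cnp_lin y v, hα, hβ]
  have hΔ : (m : ℝ) * β - n * α ≠ 0 := by
    intro h0
    have h1 := hc.inj ![(n : ℝ), -(m : ℝ)] (by rw [hx]; simp; ring) (by rw [hy]; simp; linarith)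
    have hn0 : (n : ℝ) = 0 := by
      have := congrFun h1 0
      simpa using this
    have hm0 : (m : ℝ) = 0 := by
      have := congrFun h1 1
      simpa using this
    have h2 := hc.xp
    rw [hx, hn0, hm0] at h2
    simp at h2
  have hD : ∀ a b : ℤ, ∃ D : Cart X, cv ν D = ![(a : ℝ), (b : ℝ)] := by
    intro a b
    obtain ⟨D, hD⟩ := cv_surj hν ![a, b]
    refine ⟨D, ?_⟩
    rw [hD]
    funext i
    fin_cases i <;> simp
  obtain ⟨C, hC⟩ := dio α β m n hΔ (by
    intro a b hab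
    obtain ⟨D, hD⟩ := hD a b
    have h1 := hc.yirr D (by
      rw [hD, hy]
      simp
      linarith)
    rw [hD] at h1
    constructor
    · have := congrFun h1 0
      simpa using this
    · have := congrFun h1 1
      simpa using this)
  refine ⟨C, fun η hη => ?_⟩
  obtain ⟨a, b, h1, h2, h3, h4⟩ := hC η hη
  obtain ⟨D, hD⟩ := hD a b
  have e1 : y (cv ν D) = α * a + β * b := by
    rw [hD, hy]
    simp
    ring
  have e2 : x (cv ν D) = (m : ℝ) * a + n * b := by
    rw [hD, hx]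
    simp
    ring
  refine ⟨D, ?_, ?_, ?_, ?_⟩
  · rw [e1]
    exact h1
  · rw [e1]
    exact h2
  · rw [e2]
    exact h3
  · rw [e1, e2]
    exact h4

theorem dcv (hc : Coords ν p x y) (N : ℝ) :
    ∃ η : ℝ, 0 < η ∧ ∀ D : Cart X, 0 < y (cv ν D) → y (cv ν D) < η → 0 ≤ x (cv ν D) → N < x (cv ν D) := by
  obtain ⟨η, h1, h2⟩ := dis x y hc.inj N
  refine ⟨η, h1, fun D h3 h4 h5 => ?_⟩
  obtain ⟨s, hs⟩ := cv_int ν D
  rw [hs] at h3 h4 h5 ⊢
  exact h2 s h3 h4 h5

end Pool.Agent.H41.TU
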