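import Pool.Agent.H41.TU.Cnp

/-!
# [H41 TU Ind] Theorem U, the plane: indecomposable classes

`ind`: below every class of the ample cone there is an indecomposable one.
PROOF.  Strong induction on the natural number `n = x (cv ν D)` (`hc.xint`, `hc.xamp`).  If `D` is not indecomposable there are `A`, `B` with classes in `AmpV ν` and `cv ν A + cv ν B = cv ν D` (negation of `Indec`, `hD`).
`x (cv ν B) > 0`, so `x (cv ν A) < x (cv ν D)`, `y (cv ν A) < y (cv ν D)` (`hc.yamp`).  Apply the induction hypothesis to `A`.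

`ism`: there is `C` such that for every `η > 0` there is an indecomposable `D` with `y < η`, `x * y ≤ C` and `x > N` (for a given `N`).
PROOF.  `ε` of `con`, `C` of `sma` (enlarge `C` so that `C ≥ 0`), `N' = max N (1 / ε)`, `η₁` of `dcv` for `N'`, `η' = min η (min η₁ 1)`.  `D₀` of `sma` for `η'`: `x (cv ν D₀) > 1 / ε`, so `y (cv ν D₀) < 1 < ε * x (cv ν D₀)`, so `cv ν D₀ ∈ AmpV ν`.
`E` of `ind`: indecomposable, `0 < y_E ≤ y_D₀ < η'`, `0 < x_E ≤ x_D₀`, so `x_E * y_E ≤ C`, and `x_E > N' ≥ N` by `dcv`.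

`isl`: for every `η > 0` there is `δ > 0` such that an indecomposable `D` with `y < δ * x` has `y < η`.
PROOF.  `ε` of `con`; `D₁` with `0 < y₁ < η`, `cv ν D₁ ∈ AmpV ν`, `x₁ > 0` (`ism` with `C`, or the `D₀` above).  `δ = min (ε / 2) (η / (2 * x₁))`.  Let `D` be indecomposable with `y_D < δ * x_D`, and suppose `y_D ≥ η`.
Then `x_D > y_D / δ ≥ η / δ ≥ 2 * x₁`, so `x_D - x₁ > x_D / 2`, and `0 < y_D - y₁ < y_D < δ * x_D ≤ (ε / 2) * x_D < ε * (x_D - x₁)`.  So `cv ν D - cv ν D₁ = cv ν (D * D₁⁻¹) ∈ AmpV ν` (`con`), and `cv ν D = cv ν D₁ + cv ν (D * D₁⁻¹)`: `D` is not indecomposable.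

`icg`: being indecomposable depends only on the class.
-/

set_option autoImplicit false

namespace Pool.Agent.H41.TU

open Pool.Agent.H54.RV Pool.Agent.H83.TU

variable {k K : Type} [Field k] [Field K] [Algebra k K] {X : Mod k K}
  {ν : Cart X →* Multiplicative (Fin 2 → ℤ)} {p : Fin 2 → ℝ} {x y : (Fin 2 → ℝ) →ₗ[ℝ] ℝ}

theorem ind (hc : Coords ν p x y) (D : Cart X) (hD : cv ν D ∈ AmpV ν) :
    ∃ E : Cart X, Indec ν E ∧ x (cv ν E) ≤ x (cv ν D) ∧ y (cv ν E) ≤ y (cv ν D) := by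
  obtain ⟨n, hn⟩ : ∃ n : ℕ, x (cv ν D) ≤ n := exists_nat_ge _
  induction n generalizing D with
  | zero =>
    have := hc.xamp _ hD
    rw [Nat.cast_zero] at hn
    linarith
  | succ n ih =>
    by_cases hI : Indec ν D
    · exact ⟨D, hI, le_rfl, le_rfl⟩
    · unfold Indec at hI
      push Not at hI
      obtain ⟨A, B, hA, hB, hAB⟩ := hI hD
      have hxA := hc.xamp _ hA
      have hyA := hc.yamp _ hA
      have hxB := hc.xamp _ hB
      have hyB := hc.yamp _ hB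
      have e1 : x (cv ν A) + x (cv ν B) = x (cv ν D) := by rw [← map_add, hAB]
      have e2 : y (cv ν A) + y (cv ν B) = y (cv ν D) := by rw [← map_add, hAB]
      have h1 : x (cv ν A) ≤ n := by
        obtain ⟨a, ha⟩ := hc.xint A
        obtain ⟨b, hb⟩ := hc.xint B
        obtain ⟨d, hd⟩ := hc.xint D
        rw [hb] at hxB e1
        rw [ha] at e1 ⊢
        have h2 : 0 < b := by exact_mod_cast hxB
        rw [hd] at e1 hn
        have h3 : a + b = d := by exact_mod_cast e1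
        have h4 : d ≤ ((n + 1 : ℕ) : ℤ) := by exact_mod_cast hn
        have h5 : a ≤ (n : ℤ) := by push_cast at h4; omega
        exact_mod_cast h5
      obtain ⟨E, hE, h2, h3⟩ := ih A hA h1
      exact ⟨E, hE, by linarith, by linarith⟩

theorem ism (h : Hyp X) (hν : Num ν) (hop : IsOpen (AmpV ν)) (hp1 : p ∈ closure (AmpV ν))
    (hc : Coords ν p x y) :
    ∃ C : ℝ, 0 < C ∧ ∀ N η : ℝ, 0 < η → ∃ D : Cart X, Indec ν D ∧ y (cv ν D) < η ∧ N < x (cv ν D) ∧
      x (cv ν D) * y (cv ν D) ≤ C := by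
  obtain ⟨ε, hε, hcon⟩ := con h hop hp1 hc
  obtain ⟨C, hC⟩ := sma hν hc
  refine ⟨max C 1, lt_max_of_lt_right one_pos, fun N η hη => ?_⟩
  obtain ⟨η1, hη1, hdcv⟩ := dcv hc (max N (1 / ε))
  obtain ⟨D0, h1, h2, h3, h4⟩ := hC (min η (min η1 1)) (lt_min hη (lt_min hη1 one_pos))
  rw [lt_min_iff, lt_min_iff] at h2
  have h5 := hdcv D0 h1 h2.2.1 h3.le
  rw [max_lt_iff, div_lt_iff₀ hε] at h5
  have h6 : cv ν D0 ∈ AmpV ν := hcon _ h1 (by linarith [h2.2.2, h5.2, mul_comm ε (x (cv ν D0))])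
  obtain ⟨E, hE, h7, h8⟩ := ind hc D0 h6
  have hxE := hc.xamp _ hE.1
  have hyE := hc.yamp _ hE.1
  refine ⟨E, hE, by linarith [h2.1], ?_, ?_⟩
  · have h9 := hdcv E hyE (by linarith [h2.2.1]) hxE.le
    exact (max_lt_iff.1 h9).1
  · refine le_trans ?_ (h4.trans (le_max_left _ _))
    exact mul_le_mul h7 h8 hyE.le h3.le

theorem isl (h : Hyp X) (hν : Num ν) (hop : IsOpen (AmpV ν)) (hp1 : p ∈ closure (AmpV ν))
    (hc : Coords ν p x y) (η : ℝ) (hη : 0 < η) :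
    ∃ δ : ℝ, 0 < δ ∧ ∀ D : Cart X, Indec ν D → y (cv ν D) < δ * x (cv ν D) → y (cv ν D) < η := by
  obtain ⟨ε, hε, hcon⟩ := con h hop hp1 hc
  obtain ⟨C, hC, hism⟩ := ism h hν hop hp1 hc
  obtain ⟨D1, hD1, hy1, hx1, -⟩ := hism 0 η hη
  have hy10 := hc.yamp _ hD1.1
  refine ⟨min (ε / 2) (η / (2 * x (cv ν D1))), lt_min (half_pos hε) (by positivity), fun D hD hlt => ?_⟩
  by_contra hcon2
  push Not at hcon2
  have hxD := hc.xamp _ hD.1
  have h1 : y (cv ν D) < ε / 2 * x (cv ν D) :=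
    hlt.trans_le (mul_le_mul_of_nonneg_right (min_le_left _ _) hxD.le)
  have h2 : y (cv ν D) < η / (2 * x (cv ν D1)) * x (cv ν D) :=
    hlt.trans_le (mul_le_mul_of_nonneg_right (min_le_right _ _) hxD.le)
  have h3 : 2 * x (cv ν D1) < x (cv ν D) := by
    have h4 : η < η / (2 * x (cv ν D1)) * x (cv ν D) := lt_of_le_of_lt hcon2 h2
    rw [div_mul_eq_mul_div, lt_div_iff₀ (by positivity)] at h4
    exact lt_of_mul_lt_mul_left h4 hη.le
  have hcv : cv ν (D * D1⁻¹) = cv ν D - cv ν D1 := by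
    rw [cv_mul, cv_inv, sub_eq_add_neg]
  have h4 : cv ν (D * D1⁻¹) ∈ AmpV ν := by
    refine hcon _ ?_ ?_
    · rw [hcv, map_sub]
      linarith
    · rw [hcv, map_sub, map_sub]
      nlinarith
  refine hD.2 D1 (D * D1⁻¹) hD1.1 h4 ?_
  rw [hcv]
  abel

theorem icg {D E : Cart X} (h : cv ν D = cv ν E) (hD : Indec ν D) : Indec ν E := by
  unfold Indec at *
  rwa [← h]

end Pool.Agent.H41.TU
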