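import Pool.Agent.H83.TU.NV
import Pool.Agent.H83.TU.RX

/-!
# [H41 TU Lin] Theorem U, the plane: an `RFun` is an integral linear form

`R` an `RFun`.  There is a linear form `r` on the plane with `r (cv ν D) = R D` for all `D`.

PROOF.  `R D` depends only on `cv ν D`: if `cv ν D = cv ν E` then `cv ν (D * E⁻¹) = 0` (`cv_mul`, `cv_inv`), so `NumZ (D * E⁻¹)` (`cv_eq_zero`), `R (D * E⁻¹) = 0` (`rfun_numz`), and `R D = R (D * E⁻¹ * E) = R E` (`hR.add`).
Choose `b i` with `cv ν (b i) = Pi.single i 1` (`cv_surj hν (Pi.single i 1)`), and `r v = v 0 * R (b 0) + v 1 * R (b 1)` (as a linear map, for instance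
`(R (b 0) : ℝ) • LinearMap.proj 0 + (R (b 1) : ℝ) • LinearMap.proj 1`).  For `D`, `s = toAdd (ν D)` (`cv_int`): `D` and `b 0 ^ s 0 * b 1 ^ s 1` (integral powers) have the same class (`cv_mul`, `cv_zpow`), so
`R D = s 0 * R (b 0) + s 1 * R (b 1)` (`R` is a group homomorphism: `hR.add`; `R 1 = 0`, `R D⁻¹ = - R D`; `R (D ^ n) = n * R D` for integers `n`; the easiest way is to define
`f : Cart X →* Multiplicative ℤ` from `hR.add` with `MonoidHom.mk'` and to use `map_zpow`, `map_mul`) `= r (cv ν D)`.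
-/

set_option autoImplicit false

namespace Pool.Agent.H41.TU

open Pool.Agent.H54.RV Pool.Agent.H83.TU

variable {k K : Type} [Field k] [Field K] [Algebra k K] {X : Mod k K}
  {ν : Cart X →* Multiplicative (Fin 2 → ℤ)}

theorem rlin (h : Hyp X) (hν : Num ν) (R : Cart X → ℤ) (hR : RFun R) :
    ∃ r : (Fin 2 → ℝ) →ₗ[ℝ] ℝ, ∀ D : Cart X, r (cv ν D) = R D :=
  rfun_lin h hν hR

end Pool.Agent.H41.TU
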